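import Pool.Agent.STH.Defs

/-!
# STH, module Tup: many separated tuples
-/

set_option autoImplicit false

namespace Pool.Agent.STH

open Finset

theorem Tup_symm {n : ℕ} (x x' : Pt n) : dist x x' = dist x' x := by
  unfold dist
  congr 1
  ext i
  simp only [mem_filter, mem_univ, true_and]
  exact ne_comm

open Classical in
/-- separated tuples -/
private noncomputable def Sep (n t : ℕ) (Yy : Finset (Pt n)) (m : ℕ) : Finset (Fin m → Pt n) :=
  univ.filter fun z => (∀ i, z i ∈ Yy) ∧ ∀ i j, i ≠ j → t ≤ dist (z i) (z j)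

private theorem step (n t : ℕ) (Yy : Finset (Pt n)) (b : ℝ)
    (hb : ∀ x ∈ Yy, (((Yy.filter fun x' => dist x x' < t).card : ℕ) : ℝ) ≤ b) (m : ℕ) :
    ((Sep n t Yy m).card : ℝ) * ((Yy.card : ℝ) - m * b) ≤ (Sep n t Yy (m + 1)).card := by
  classical
  let good : (Fin m → Pt n) → Finset (Pt n) := fun z => Yy.filter fun x => ∀ i, t ≤ dist (z i) x
  have h1 : ∀ z ∈ Sep n t Yy m, (Yy.card : ℝ) - m * b ≤ (good z).card := by
    intro z hz
    rw [Sep, mem_filter] at hz
    have h2 : Yy ⊆ good z ∪ univ.biUnion fun i => Yy.filter fun x' => dist (z i) x' < t := by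
      intro x hx
      rw [mem_union]
      by_cases h : ∀ i, t ≤ dist (z i) x
      · exact Or.inl (mem_filter.2 ⟨hx, h⟩)
      · obtain ⟨i, hi⟩ := not_forall.1 h
        exact Or.inr (mem_biUnion.2 ⟨i, mem_univ i, mem_filter.2 ⟨hx, not_le.1 hi⟩⟩)
    have h3 : Yy.card ≤ (good z).card +
        ∑ i : Fin m, (Yy.filter fun x' => dist (z i) x' < t).card :=
      (card_le_card h2).trans ((card_union_le _ _).trans (Nat.add_le_add_left card_biUnion_le _))
    have h4 : (Yy.card : ℝ) ≤ (good z).card +
        ∑ i : Fin m, (((Yy.filter fun x' => dist (z i) x' < t).card : ℕ) : ℝ) := by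
      exact_mod_cast h3
    have h5 : ∑ i : Fin m, (((Yy.filter fun x' => dist (z i) x' < t).card : ℕ) : ℝ) ≤ m * b := by
      refine (sum_le_sum fun i _ => hb (z i) (hz.2.1 i)).trans (le_of_eq ?_)
      rw [sum_const, card_univ, Fintype.card_fin, nsmul_eq_mul]
    linarith
  have h2 : ((Sep n t Yy m).sigma fun z => good z).card ≤ (Sep n t Yy (m + 1)).card := by
    refine card_le_card_of_injOn (fun q => (Fin.cons q.2 q.1 : Fin (m + 1) → Pt n)) ?_ ?_
    · rintro ⟨z, x⟩ hq
      rw [mem_coe, mem_sigma] at hq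
      obtain ⟨hz, hx⟩ := hq
      rw [Sep, mem_filter] at hz
      obtain ⟨-, hz1, hz2⟩ := hz
      obtain ⟨hx1, hx2⟩ := mem_filter.1 hx
      rw [mem_coe, Sep, mem_filter]
      refine ⟨mem_univ _, ?_, ?_⟩
      · intro i
        refine Fin.cases ?_ (fun j => ?_) i
        · exact hx1
        · exact hz1 j
      · intro i j
        refine Fin.cases ?_ (fun i' => ?_) i
        · refine Fin.cases ?_ (fun j' => ?_) j
          · intro h
            exact absurd rfl h
          · intro _
            rw [Tup_symm]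
            exact hx2 j'
        · refine Fin.cases ?_ (fun j' => ?_) j
          · intro _
            exact hx2 i'
          · intro h
            exact hz2 i' j' fun h' => h (congrArg Fin.succ h')
    · rintro ⟨z, x⟩ _ ⟨z', x'⟩ _ h
      obtain ⟨h3, h4⟩ := Fin.cons_injective2 h
      subst h3
      subst h4
      rfl
  calc ((Sep n t Yy m).card : ℝ) * ((Yy.card : ℝ) - m * b)
      = ∑ z ∈ Sep n t Yy m, ((Yy.card : ℝ) - m * b) := by rw [sum_const, nsmul_eq_mul]
    _ ≤ ∑ z ∈ Sep n t Yy m, ((good z).card : ℝ) := sum_le_sum h1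
    _ = (((Sep n t Yy m).sigma fun z => good z).card : ℝ) := by
        rw [card_sigma, Nat.cast_sum]
    _ ≤ _ := by exact_mod_cast h2

/-- [Tup] many separated tuples. -/
theorem thm_Tup : St_Tup := by
  classical
  intro n p t Yy b hb hp
  have key : ∀ m, m ≤ p → ((Yy.card : ℝ) / 2) ^ m ≤ (Sep n t Yy m).card := by
    intro m
    induction m with
    | zero =>
      intro _
      have h1 : 0 < (Sep n t Yy 0).card := by
        refine card_pos.2 ⟨Fin.elim0, ?_⟩
        rw [Sep, mem_filter]
        exact ⟨mem_univ _, fun i => i.elim0, fun i => i.elim0⟩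
      rw [pow_zero]
      exact_mod_cast h1
    | succ m ih =>
      intro hm
      have ih' := ih (by omega)
      rcases Yy.eq_empty_or_nonempty with h0 | ⟨x, hx⟩
      · rw [h0, card_empty, Nat.cast_zero, zero_div, zero_pow (Nat.succ_ne_zero m)]
        exact Nat.cast_nonneg _
      · have hb0 : 0 ≤ b := (Nat.cast_nonneg _).trans (hb x hx)
        have h1 : (m : ℝ) * b ≤ p * b :=
          mul_le_mul_of_nonneg_right (by exact_mod_cast (by omega : m ≤ p)) hb0
        have h2 : (Yy.card : ℝ) / 2 ≤ (Yy.card : ℝ) - m * b := by linarith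
        calc ((Yy.card : ℝ) / 2) ^ (m + 1) = ((Yy.card : ℝ) / 2) ^ m * ((Yy.card : ℝ) / 2) :=
              pow_succ _ _
          _ ≤ ((Sep n t Yy m).card : ℝ) * ((Yy.card : ℝ) - m * b) :=
              mul_le_mul ih' h2 (by positivity) (Nat.cast_nonneg _)
          _ ≤ _ := step n t Yy b hb m
  refine (key p le_rfl).trans (le_of_eq ?_)
  rw [Nat.card_eq_fintype_card, Fintype.card_subtype]
  unfold Sep
  congr 2

end Pool.Agent.STH
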