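import Pool.Agent.STH.Defs

/-!
# STH [Bal]: the bound for balls (helper28)
-/

set_option autoImplicit false

namespace Pool.Agent.STH

open Finset

/-- Bal. -/
theorem thm_Bal : St_Bal := by
  classical
  intro n R t ξ h0 h1 x
  obtain ⟨D, hD⟩ : ∃ D : Finset (Finset (Fin n)), D = R.powerset.filter (fun S => S.card < t) :=
    ⟨_, rfl⟩
  have hmem : ∀ x' : {x' : Pt n // Off R x x' ∧ dist x x' < t},
      (univ.filter fun i => x i ≠ x'.1 i) ∈ D := by
    rintro ⟨x', h2, h3⟩
    rw [hD, mem_filter, mem_powerset]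
    refine ⟨fun i hi => ?_, h3⟩
    by_contra h4
    exact (mem_filter.1 hi).2 (h2 i h4).symm
  have hcard : Nat.card {x' : Pt n // Off R x x' ∧ dist x x' < t} ≤ D.card := by
    have h5 : Function.Injective (fun x' : {x' : Pt n // Off R x x' ∧ dist x x' < t} =>
        (⟨univ.filter fun i => x i ≠ x'.1 i, hmem x'⟩ : D)) := by
      rintro ⟨y, hy⟩ ⟨z, hz⟩ h
      have h6 : (univ.filter fun i => x i ≠ y i) = (univ.filter fun i => x i ≠ z i) :=
        congrArg Subtype.val h
      refine Subtype.ext (funext fun i => ?_)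
      have h7 : x i ≠ y i ↔ x i ≠ z i := by
        have h8 := Finset.ext_iff.1 h6 i
        simpa using h8
      show y i = z i
      revert h7
      cases x i <;> cases y i <;> cases z i <;> simp
    have h9 := Nat.card_le_card_of_injective _ h5
    rwa [Nat.card_eq_fintype_card (α := D), Fintype.card_coe] at h9
  have hsum : (D.card : ℝ) * ξ ^ t ≤ (1 + ξ) ^ R.card := by
    calc (D.card : ℝ) * ξ ^ t = ∑ S ∈ D, ξ ^ t := by rw [sum_const, nsmul_eq_mul]
      _ ≤ ∑ S ∈ D, ξ ^ S.card := by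
          refine sum_le_sum fun S hS => ?_
          rw [hD, mem_filter] at hS
          exact pow_le_pow_of_le_one h0.le h1 hS.2.le
      _ ≤ ∑ S ∈ R.powerset, ξ ^ S.card := by
          refine sum_le_sum_of_subset_of_nonneg ?_ fun S _ _ => by positivity
          rw [hD]
          exact filter_subset _ _
      _ = ∑ S ∈ R.powerset, ξ ^ S.card * 1 ^ (R.card - S.card) := by simp
      _ = (ξ + 1) ^ R.card := Finset.sum_pow_mul_eq_add_pow ξ 1 R
      _ = (1 + ξ) ^ R.card := by rw [add_comm]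
  have hpos : 0 < ξ ^ t := pow_pos h0 t
  have hc : ((Nat.card {x' : Pt n // Off R x x' ∧ dist x x' < t} : ℕ) : ℝ) ≤ (D.card : ℝ) := by
    exact_mod_cast hcard
  calc ((Nat.card {x' : Pt n // Off R x x' ∧ dist x x' < t} : ℕ) : ℝ) ≤ (D.card : ℝ) := hc
    _ = (D.card : ℝ) * ξ ^ t * (1 / ξ) ^ t := by
        rw [mul_assoc, ← mul_pow, mul_one_div_cancel h0.ne', one_pow, mul_one]
    _ ≤ (1 + ξ) ^ R.card * (1 / ξ) ^ t := by
        refine mul_le_mul_of_nonneg_right hsum ?_
        positivity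

end Pool.Agent.STH
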