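import Pool.Agent.STH.Defs

/-!
# Few formulas have given far apart models
-/

set_option autoImplicit false

namespace Pool.Agent.STH

open Finset

private theorem Cls_bonf (T : ℕ) : (if T = 0 then (1 : ℝ) else 0) ≤ 1 - T + (T * T - T) / 2 := by
  rcases T with _ | _ | T
  · simp
  · simp
  · rw [if_neg (by omega)]
    push_cast
    have : (0 : ℝ) ≤ T := Nat.cast_nonneg T
    nlinarith

private theorem Cls_pow {A : Type} [Fintype A] [DecidableEq A] (k : ℕ) (p : A → Prop)
    [DecidablePred p] : (univ.filter fun c : Fin k → A => ∀ j, p (c j)).card =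
      (univ.filter p).card ^ k := by
  rw [← Fintype.card_piFinset_const]
  congr 1
  ext c
  simp [Fintype.mem_piFinset]

private theorem Cls_one {n : ℕ} (x : Pt n) :
    (univ.filter fun p : Fin n × Bool => x p.1 ≠ p.2).card = n := by
  have h : (univ.filter fun p : Fin n × Bool => x p.1 ≠ p.2) =
      univ.image fun v : Fin n => (v, !x v) := by
    ext ⟨v, b⟩
    simp only [mem_filter, mem_univ, true_and, mem_image, Prod.mk.injEq, exists_eq_left]
    cases h1 : x v <;> cases b <;> simp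
  rw [h, card_image_of_injective _ (fun v w h => (Prod.mk.inj h).1), card_univ, Fintype.card_fin]

private theorem Cls_two {n t : ℕ} (x y : Pt n) (ht : t ≤ dist x y) :
    (univ.filter fun p : Fin n × Bool => x p.1 ≠ p.2 ∧ y p.1 ≠ p.2).card ≤ n - t := by
  have h : (univ.filter fun p : Fin n × Bool => x p.1 ≠ p.2 ∧ y p.1 ≠ p.2) ⊆
      (univ.filter fun v : Fin n => ¬ x v ≠ y v).image fun v : Fin n => (v, !x v) := by
    rintro ⟨v, b⟩
    simp only [mem_filter, mem_univ, true_and, mem_image, Prod.mk.injEq]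
    cases h1 : x v <;> cases h2 : y v <;> cases b <;> simp_all
  have h1 := (card_le_card h).trans card_image_le
  have h2 := card_filter_add_card_filter_not (s := (univ : Finset (Fin n))) (fun v => x v ≠ y v)
  rw [card_univ, Fintype.card_fin] at h2
  unfold dist at ht
  omega

theorem thm_Cls : St_Cls := by
  classical
  intro n k M q t x hn htn hd hq
  -- the number of good clauses
  obtain ⟨N, hN⟩ : ∃ N : ℕ, N = (univ.filter fun c : Fin k → Fin n × Bool =>
      ∀ i, ∃ j, x i (c j).1 = (c j).2).card := ⟨_, rfl⟩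
  have hcard : Nat.card {ω : Fm n k M // ∀ i, Mod ω (x i)} = N ^ M := by
    rw [Nat.card_eq_fintype_card, Fintype.card_subtype, hN, ← Cls_pow M
      (fun c : Fin k → Fin n × Bool => ∀ i, ∃ j, x i (c j).1 = (c j).2)]
    congr 1
    ext ω
    rw [mem_filter, mem_filter]
    exact ⟨fun h => ⟨mem_univ _, fun m i => h.2 i m⟩, fun h => ⟨mem_univ _, fun i m => h.2 m i⟩⟩
  obtain ⟨b, hb⟩ : ∃ b : Fin q → (Fin k → Fin n × Bool) → ℝ, b = fun i c =>
      if ∀ j, x i (c j).1 ≠ (c j).2 then 1 else 0 := ⟨_, rfl⟩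
  obtain ⟨T, hT⟩ : ∃ T : (Fin k → Fin n × Bool) → ℕ, T = fun c =>
      (univ.filter fun i => ∀ j, x i (c j).1 ≠ (c j).2).card := ⟨_, rfl⟩
  have hTb : ∀ c, (T c : ℝ) = ∑ i, b i c := by
    intro c
    rw [hT, hb]
    exact natCast_card_filter _ _
  have hbb : ∀ i c, b i c * b i c = b i c := by
    intro i c
    rw [hb]
    show (if _ then (1 : ℝ) else 0) * (if _ then (1 : ℝ) else 0) = if _ then (1 : ℝ) else 0
    split_ifs <;> norm_num
  have hb1 : ∀ i, ∑ c, b i c = (n : ℝ) ^ k := by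
    intro i
    have h1 : ∑ c, b i c = ((univ.filter fun c : Fin k → Fin n × Bool =>
        ∀ j, x i (c j).1 ≠ (c j).2).card : ℝ) := by
      rw [hb, natCast_card_filter]
    rw [h1, Cls_pow k (fun p : Fin n × Bool => x i p.1 ≠ p.2), Cls_one]
    push_cast
    rfl
  have hb2 : ∀ i i', i ≠ i' → ∑ c, b i c * b i' c ≤ ((n : ℝ) - t) ^ k := by
    intro i i' hii
    have h1 : ∑ c, b i c * b i' c = ((univ.filter fun c : Fin k → Fin n × Bool =>
        ∀ j, x i (c j).1 ≠ (c j).2 ∧ x i' (c j).1 ≠ (c j).2).card : ℝ) := by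
      rw [hb, natCast_card_filter]
      refine sum_congr rfl fun c _ => ?_
      show (if _ then (1 : ℝ) else 0) * (if _ then (1 : ℝ) else 0) = if _ then (1 : ℝ) else 0
      by_cases h2 : ∀ j, x i (c j).1 ≠ (c j).2
      · by_cases h3 : ∀ j, x i' (c j).1 ≠ (c j).2
        · rw [if_pos h2, if_pos h3, if_pos fun j => ⟨h2 j, h3 j⟩, one_mul]
        · rw [if_neg h3, mul_zero, if_neg fun h => h3 fun j => (h j).2]
      · rw [if_neg h2, zero_mul, if_neg fun h => h2 fun j => (h j).1]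
    rw [h1, Cls_pow k (fun p : Fin n × Bool => x i p.1 ≠ p.2 ∧ x i' p.1 ≠ p.2)]
    have h2 := Cls_two (x i) (x i') (hd i i' hii)
    have h3 : (((univ.filter fun p : Fin n × Bool =>
        x i p.1 ≠ p.2 ∧ x i' p.1 ≠ p.2).card : ℕ) : ℝ) ≤ (n : ℝ) - t := by
      rw [← Nat.cast_sub htn]
      exact_mod_cast h2
    push_cast
    exact pow_le_pow_left₀ (Nat.cast_nonneg _) h3 k
  have h0 : (N : ℝ) ≤ ∑ c, (1 - (T c : ℝ) + (T c * T c - T c) / 2) := by
    rw [hN, natCast_card_filter]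
    refine sum_le_sum fun c _ => le_trans (le_of_eq ?_) (Cls_bonf (T c))
    have h1 : (∀ i, ∃ j, x i (c j).1 = (c j).2) ↔ T c = 0 := by
      rw [hT, card_eq_zero, filter_eq_empty_iff]
      simp
    simp only [h1]
  have hs1 : ∑ c, (T c : ℝ) = q * (n : ℝ) ^ k := by
    simp only [hTb]
    rw [sum_comm, sum_congr rfl fun i _ => hb1 i, sum_const, card_univ, Fintype.card_fin,
      nsmul_eq_mul]
  have hs2 : ∑ c, ((T c : ℝ) * T c - T c) ≤ (q : ℝ) ^ 2 * ((n : ℝ) - t) ^ k := by
    have h1 : ∀ c, (T c : ℝ) * T c - T c = ∑ i, ∑ i' ∈ univ.erase i, b i c * b i' c := by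
      intro c
      have h2 : (T c : ℝ) * T c = ∑ i, (b i c + ∑ i' ∈ univ.erase i, b i c * b i' c) := by
        rw [hTb, sum_mul]
        refine sum_congr rfl fun i _ => ?_
        rw [mul_sum, ← add_sum_erase _ _ (mem_univ i), hbb]
      rw [h2, sum_add_distrib, hTb]
      ring
    simp only [h1]
    rw [sum_comm]
    have h3 : (0 : ℝ) ≤ ((n : ℝ) - t) ^ k :=
      pow_nonneg (by rw [sub_nonneg]; exact_mod_cast htn) k
    have h2 : ∀ i ∈ (univ : Finset (Fin q)), ∑ c, ∑ i' ∈ univ.erase i, b i c * b i' c ≤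
        (q : ℝ) * ((n : ℝ) - t) ^ k := by
      intro i _
      rw [sum_comm]
      refine (sum_le_card_nsmul _ _ (((n : ℝ) - t) ^ k) fun i' hi' =>
        hb2 i i' (ne_of_mem_erase hi').symm).trans ?_
      rw [nsmul_eq_mul]
      refine mul_le_mul_of_nonneg_right ?_ h3
      have h4 : (univ.erase i).card ≤ q := by
        refine (card_le_card (erase_subset _ _)).trans ?_
        rw [card_univ, Fintype.card_fin]
      exact_mod_cast h4
    refine (sum_le_card_nsmul _ _ _ h2).trans (le_of_eq ?_)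
    rw [card_univ, Fintype.card_fin, nsmul_eq_mul]
    ring
  have hn0 : (0 : ℝ) < n := by exact_mod_cast hn
  have hcnt : ∑ _c : Fin k → Fin n × Bool, (1 : ℝ) = (2 * (n : ℝ)) ^ k := by
    rw [sum_const, card_univ, nsmul_eq_mul, mul_one, Fintype.card_fun, Fintype.card_prod,
      Fintype.card_fin, Fintype.card_bool, Fintype.card_fin]
    push_cast
    rw [mul_comm]
  have hmain : (N : ℝ) ≤ (2 * (n : ℝ)) ^ k * Real.exp (-((q - 1 / 2) / 2 ^ k)) := by
    have h1 : (q : ℝ) ^ 2 * ((n : ℝ) - t) ^ k ≤ (n : ℝ) ^ k := by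
      have h2 : ((n : ℝ) - t) ^ k = (n : ℝ) ^ k * (1 - (t : ℝ) / n) ^ k := by
        rw [← mul_pow]
        congr 1
        field_simp
      rw [h2]
      have h3 : (0 : ℝ) ≤ (n : ℝ) ^ k := by positivity
      nlinarith
    have h4 : (N : ℝ) ≤ (2 * (n : ℝ)) ^ k - q * (n : ℝ) ^ k + (n : ℝ) ^ k / 2 := by
      refine h0.trans ?_
      rw [sum_add_distrib, sum_sub_distrib, hcnt, hs1, ← sum_div]
      linarith
    have h5 : (2 * (n : ℝ)) ^ k - q * (n : ℝ) ^ k + (n : ℝ) ^ k / 2 =
        (2 * (n : ℝ)) ^ k * (1 - (q - 1 / 2) / 2 ^ k) := by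
      rw [mul_pow]
      field_simp
      ring
    rw [h5] at h4
    refine h4.trans (mul_le_mul_of_nonneg_left ?_ (by positivity))
    have h6 := Real.add_one_le_exp (-(((q : ℝ) - 1 / 2) / 2 ^ k))
    linarith
  rw [hcard]
  push_cast
  refine (pow_le_pow_left₀ (Nat.cast_nonneg _) hmain M).trans (le_of_eq ?_)
  rw [mul_pow, ← pow_mul, ← Real.exp_nat_mul]
  congr 2
  ring

end Pool.Agent.STH
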