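import Pool.Agent.STH.Defs

/-!
# Strong exponential lower bounds for read-once programs: the lemma for one node (helper82)
-/

set_option autoImplicit false

namespace Pool.Agent.STH

open Finset

private lemma Nod_card {ι : Type} [Fintype ι] (p : ι → Prop) [DecidablePred p] :
    Nat.card {x // p x} = (univ.filter p).card := by
  rw [Nat.card_eq_fintype_card, Fintype.card_subtype]

private lemma Nod_prod {P Z : Type} [Fintype P] [Fintype Z] (p : P → Z → Prop)
    [∀ A, DecidablePred (p A)] :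
    Nat.card {q : P × Z // p q.1 q.2} = ∑ A, (univ.filter (p A)).card := by
  classical
  rw [Nod_card, card_filter, Fintype.sum_prod_type]
  refine sum_congr rfl fun A _ => ?_
  rw [card_filter]

private lemma Nod_elem {a Y N B T : ℝ} (ha : 0 ≤ a) (hY : 0 ≤ Y) (hN : 0 ≤ N)
    (hBN : 4 * B ≤ N) (hT : 0 ≤ T) (h : T ^ 2 ≤ a * (B * T + N ^ 2 * Y)) :
    2 * T ≤ N * (a + 2 * Y) := by
  by_contra hcon
  push Not at hcon
  obtain ⟨c, hc⟩ : ∃ c, c = N * (a + 2 * Y) / 2 := ⟨_, rfl⟩
  have hcT : c < T := by rw [hc]; linarith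
  have hac : a * N / 4 ≤ c := by
    rw [hc]
    nlinarith [mul_nonneg hN ha, mul_nonneg hN hY]
  have h1 : T ^ 2 - a * N / 4 * T - a * N ^ 2 * Y ≤ 0 := by
    have h2 : a * (B * T) ≤ a * (N / 4 * T) :=
      mul_le_mul_of_nonneg_left (mul_le_mul_of_nonneg_right (by linarith) hT) ha
    nlinarith
  have hT0 : 0 < T := by
    have : 0 ≤ c := by rw [hc]; positivity
    linarith
  have h3 : 0 < (T - c) * (T + c - a * N / 4) := mul_pos (by linarith) (by linarith)
  have h4 : c ^ 2 - a * N / 4 * c - a * N ^ 2 * Y = N ^ 2 / 8 * ((a - Y) ^ 2 + 7 * Y ^ 2) := by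
    rw [hc]
    ring
  have h5 : 0 ≤ N ^ 2 / 8 * ((a - Y) ^ 2 + 7 * Y ^ 2) := by positivity
  nlinarith

private lemma Nod_fiber {P Z : Type} [Fintype P] [Fintype Z] [DecidableEq P] [DecidableEq Z]
    (F : P → Finset Z) (near : P → P → Prop) [∀ A, DecidablePred (near A)] {B Y : ℝ}
    (hY : 0 ≤ Y) (hB : 0 ≤ B) (hnear : ∀ A, ((univ.filter (near A)).card : ℝ) ≤ B)
    (hfar : ∀ A A', ¬ near A A' → ((F A ∩ F A').card : ℝ) ≤ Y) (Q : Finset P) (S : Finset Z) :
    ∑ A ∈ Q, (2 * ((F A ∩ S).card : ℝ) - S.card) ≤ 2 * Q.card * Y + 4 * B * S.card := by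
  have hle : ∀ A, ((F A ∩ S).card : ℝ) ≤ S.card := fun A => by
    exact_mod_cast card_le_card inter_subset_right
  rcases lt_or_ge (Q.card : ℝ) (4 * B) with hN | hN
  · calc ∑ A ∈ Q, (2 * ((F A ∩ S).card : ℝ) - S.card) ≤ ∑ A ∈ Q, (S.card : ℝ) :=
          sum_le_sum fun A _ => by linarith [hle A]
      _ = Q.card * S.card := by rw [sum_const, nsmul_eq_mul]
      _ ≤ 4 * B * S.card := mul_le_mul_of_nonneg_right hN.le (Nat.cast_nonneg _)
      _ ≤ 2 * Q.card * Y + 4 * B * S.card := by
          have : 0 ≤ 2 * (Q.card : ℝ) * Y := by positivity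
          linarith
  · obtain ⟨T, hT⟩ : ∃ T : ℝ, T = ∑ A ∈ Q, ((F A ∩ S).card : ℝ) := ⟨_, rfl⟩
    obtain ⟨e, he⟩ : ∃ e : P → Z → ℝ, ∀ A z, e A z = if z ∈ F A then 1 else 0 :=
      ⟨_, fun _ _ => rfl⟩
    have h1 : ∀ A, ∑ z ∈ S, e A z = ((F A ∩ S).card : ℝ) := by
      intro A
      rw [inter_comm, ← filter_mem_eq_inter, card_filter]
      push_cast
      exact sum_congr rfl fun z _ => by rw [he]
    have h2 : ∀ A A', ∑ z ∈ S, e A z * e A' z = ((F A ∩ F A' ∩ S).card : ℝ) := by
      intro A A'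
      rw [inter_comm, ← filter_mem_eq_inter, card_filter]
      push_cast
      refine sum_congr rfl fun z _ => ?_
      rw [he, he]
      by_cases ha : z ∈ F A <;> by_cases hb : z ∈ F A' <;> simp [ha, hb]
    have h3 : T = ∑ z ∈ S, ∑ A ∈ Q, e A z := by
      rw [hT, sum_comm]
      exact sum_congr rfl fun A _ => (h1 A).symm
    have h4 : T ^ 2 ≤ S.card * ∑ z ∈ S, (∑ A ∈ Q, e A z) ^ 2 := by
      rw [h3]
      exact sq_sum_le_card_mul_sum_sq
    have h5 : ∑ z ∈ S, (∑ A ∈ Q, e A z) ^ 2 =
        ∑ A ∈ Q, ∑ A' ∈ Q, ((F A ∩ F A' ∩ S).card : ℝ) := by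
      simp only [pow_two, sum_mul_sum]
      rw [sum_comm]
      refine sum_congr rfl fun A _ => ?_
      rw [sum_comm]
      exact sum_congr rfl fun A' _ => h2 A A'
    have h6 : ∑ A ∈ Q, ∑ A' ∈ Q, ((F A ∩ F A' ∩ S).card : ℝ) ≤ B * T + (Q.card : ℝ) ^ 2 * Y := by
      have h7 : ∀ A ∈ Q, ∑ A' ∈ Q, ((F A ∩ F A' ∩ S).card : ℝ) ≤
          B * ((F A ∩ S).card : ℝ) + Q.card * Y := by
        intro A _
        have h8 : ∀ A' ∈ Q, ((F A ∩ F A' ∩ S).card : ℝ) ≤
            (if near A A' then ((F A ∩ S).card : ℝ) else 0) + Y := by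
          intro A' _
          by_cases hn : near A A'
          · rw [if_pos hn]
            have h9 : ((F A ∩ F A' ∩ S).card : ℝ) ≤ ((F A ∩ S).card : ℝ) := by
              exact_mod_cast card_le_card (inter_subset_inter_right inter_subset_left)
            linarith
          · rw [if_neg hn, zero_add]
            have h9 : ((F A ∩ F A' ∩ S).card : ℝ) ≤ ((F A ∩ F A').card : ℝ) := by
              exact_mod_cast card_le_card inter_subset_left
            exact h9.trans (hfar A A' hn)
        refine (sum_le_sum h8).trans ?_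
        rw [sum_add_distrib, sum_const, nsmul_eq_mul, ← sum_filter, sum_const, nsmul_eq_mul]
        have h10 : ((Q.filter fun A' => near A A').card : ℝ) ≤ B := by
          refine le_trans ?_ (hnear A)
          exact_mod_cast card_le_card (filter_subset_filter _ (subset_univ Q))
        have h11 := mul_le_mul_of_nonneg_right h10 (Nat.cast_nonneg (α := ℝ) (F A ∩ S).card)
        linarith
      refine (sum_le_sum h7).trans (le_of_eq ?_)
      rw [sum_add_distrib, sum_const, nsmul_eq_mul, ← mul_sum, ← hT]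
      ring
    have hT0 : 0 ≤ T := by rw [hT]; exact sum_nonneg fun A _ => Nat.cast_nonneg _
    have h7 : T ^ 2 ≤ (S.card : ℝ) * (B * T + (Q.card : ℝ) ^ 2 * Y) := by
      refine h4.trans ?_
      rw [h5]
      exact mul_le_mul_of_nonneg_left h6 (Nat.cast_nonneg _)
    have h8 := Nod_elem (Nat.cast_nonneg _) hY (Nat.cast_nonneg _) hN hT0 h7
    have h9 : ∑ A ∈ Q, (2 * ((F A ∩ S).card : ℝ) - S.card) = 2 * T - Q.card * S.card := by
      rw [sum_sub_distrib, ← mul_sum, ← hT, sum_const, nsmul_eq_mul]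
    rw [h9]
    have h10 : 0 ≤ 4 * B * (S.card : ℝ) := by positivity
    nlinarith

theorem thm_Nod : St_Nod := by
  intro K _ P Z _ _ f g α β near B Y hY hB hnear hfar
  classical
  obtain ⟨F, hF⟩ : ∃ F : P → Finset Z, ∀ A, F A = univ.filter (f A) := ⟨_, fun _ => rfl⟩
  obtain ⟨X, hX⟩ : ∃ X : P → Finset Z, ∀ A, X A = univ.filter fun z => α A + β A * g z = 1 :=
    ⟨_, fun _ => rfl⟩
  have hB0 : 0 ≤ B := by linarith
  have hn' : ∀ A, ((univ.filter (near A)).card : ℝ) ≤ B := by
    intro A
    have h := hnear A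
    rwa [Nod_card] at h
  have hf' : ∀ A A', ¬ near A A' → ((F A ∩ F A').card : ℝ) ≤ Y := by
    intro A A' h
    have h1 := hfar A A' h
    rw [Nod_card] at h1
    rw [hF, hF, ← filter_and]
    exact h1
  rw [Nod_prod f, Nod_prod fun A z => (f A z ∧ α A + β A * g z ≠ 1) ∨
    (¬ f A z ∧ α A + β A * g z ≠ 0)]
  push_cast
  -- the error of one pattern
  have herr : ∀ A, ((univ.filter (f A)).card : ℝ) ≤
      ((univ.filter fun z => (f A z ∧ α A + β A * g z ≠ 1) ∨
        (¬ f A z ∧ α A + β A * g z ≠ 0)).card : ℝ) +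
        (2 * ((F A ∩ X A).card : ℝ) - (X A).card) := by
    intro A
    have h1 : (F A \ X A ∪ X A \ F A).card ≤ (univ.filter fun z =>
        (f A z ∧ α A + β A * g z ≠ 1) ∨ (¬ f A z ∧ α A + β A * g z ≠ 0)).card := by
      refine card_le_card fun z hz => ?_
      rw [mem_union, mem_sdiff, mem_sdiff, hF, hX, mem_filter, mem_filter] at hz
      rw [mem_filter]
      refine ⟨mem_univ _, ?_⟩
      rcases hz with ⟨⟨_, h2⟩, h3⟩ | ⟨⟨_, h2⟩, h3⟩
      · exact Or.inl ⟨h2, fun h4 => h3 ⟨mem_univ _, h4⟩⟩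
      · refine Or.inr ⟨fun h4 => h3 ⟨mem_univ _, h4⟩, ?_⟩
        rw [h2]
        exact one_ne_zero
    have h2 : (F A \ X A ∪ X A \ F A).card = (F A \ X A).card + (X A \ F A).card :=
      card_union_of_disjoint disjoint_sdiff_sdiff
    have h3 : (F A \ X A).card + (F A ∩ X A).card = (F A).card :=
      card_sdiff_add_card_inter _ _
    have h4 : (X A \ F A).card + (X A ∩ F A).card = (X A).card :=
      card_sdiff_add_card_inter _ _
    rw [inter_comm (X A)] at h4
    rw [h2] at h1
    rw [← hF]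
    have h1' : (((F A \ X A).card : ℝ) + (X A \ F A).card) ≤ ((univ.filter fun z =>
        (f A z ∧ α A + β A * g z ≠ 1) ∨ (¬ f A z ∧ α A + β A * g z ≠ 0)).card : ℝ) := by
      exact_mod_cast h1
    have h3' : ((F A \ X A).card : ℝ) + ((F A ∩ X A).card : ℝ) = ((F A).card : ℝ) := by
      exact_mod_cast h3
    have h4' : ((X A \ F A).card : ℝ) + ((F A ∩ X A).card : ℝ) = ((X A).card : ℝ) := by
      exact_mod_cast h4
    linarith
  refine (sum_le_sum fun A _ => herr A).trans ?_
  rw [sum_add_distrib]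
  -- the sum over the fibers
  have hfib : ∑ A, (2 * ((F A ∩ X A).card : ℝ) - (X A).card) =
      ∑ S ∈ univ.image X, ∑ A ∈ univ.filter (fun A => X A = S),
        (2 * ((F A ∩ S).card : ℝ) - S.card) := by
    rw [← sum_fiberwise_of_maps_to (s := univ) (t := univ.image X) (g := X)
      (fun A _ => mem_image_of_mem X (mem_univ A))]
    refine sum_congr rfl fun S _ => sum_congr rfl fun A hA => ?_
    rw [(mem_filter.1 hA).2]
  have hsum : ∑ S ∈ univ.image X, ∑ A ∈ univ.filter (fun A => X A = S),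
      (2 * ((F A ∩ S).card : ℝ) - S.card) ≤
      ∑ S ∈ univ.image X, (2 * ((univ.filter fun A => X A = S).card : ℝ) * Y +
        4 * B * S.card) :=
    sum_le_sum fun S _ => Nod_fiber F near hY hB0 hn' hf' _ S
  have hN : ∑ S ∈ univ.image X, ((univ.filter fun A => X A = S).card : ℝ) =
      (Fintype.card P : ℝ) := by
    rw [← card_univ, card_eq_sum_card_image X univ]
    push_cast
    rfl
  -- the sum of the sizes of the sets
  have hS : ∑ S ∈ univ.image X, (S.card : ℝ) ≤ 2 * (Fintype.card Z : ℝ) := by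
    have h1 : ∑ S ∈ univ.image X, S.card =
        ∑ z : Z, ((univ.image X).filter fun S => z ∈ S).card := by
      have h2 : ∀ S : Finset Z, S.card = ∑ z : Z, if z ∈ S then 1 else 0 := by
        intro S
        rw [← sum_filter, sum_const, smul_eq_mul, mul_one, filter_univ_mem]
      rw [sum_congr rfl fun S _ => h2 S, sum_comm]
      exact sum_congr rfl fun z _ => (card_filter _ _).symm
    have h2 : ∀ z : Z, ((univ.image X).filter fun S => z ∈ S).card ≤ 2 := by
      intro z
      refine le_trans (card_le_card (t := {univ, univ.filter fun z' => g z' = g z}) ?_)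
        card_le_two
      intro S hS
      rw [mem_filter, mem_image] at hS
      obtain ⟨⟨A, _, rfl⟩, hz⟩ := hS
      rw [hX, mem_filter] at hz
      have hz2 := hz.2
      rw [mem_insert, mem_singleton, hX]
      by_cases hβ : β A = 0
      · left
        rw [hβ, zero_mul, add_zero] at hz2
        ext z'
        simp [hβ, hz2]
      · right
        ext z'
        simp only [mem_filter, mem_univ, true_and]
        constructor
        · intro h3
          have h4 : β A * g z' = β A * g z := by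
            have := h3.trans hz2.symm
            exact add_left_cancel this
          exact mul_left_cancel₀ hβ h4
        · intro h3
          rw [h3]
          exact hz2
    have h3 : ∑ S ∈ univ.image X, S.card ≤ 2 * Fintype.card Z := by
      rw [h1]
      refine (sum_le_sum fun z _ => h2 z).trans (le_of_eq ?_)
      rw [sum_const, card_univ, smul_eq_mul, mul_comm]
    exact_mod_cast h3
  have hfin : ∑ S ∈ univ.image X, (2 * ((univ.filter fun A => X A = S).card : ℝ) * Y +
      4 * B * S.card) ≤ 2 * (Fintype.card P : ℝ) * Y + 8 * B * (Fintype.card Z : ℝ) := by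
    rw [sum_add_distrib, ← sum_mul, ← mul_sum, ← mul_sum, hN]
    have h1 := mul_le_mul_of_nonneg_left hS (show 0 ≤ 4 * B by positivity)
    linarith
  rw [hfib]
  linarith

end Pool.Agent.STH
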