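import Pool.Agent.STH.Defs

/-!
# Strong exponential lower bounds for read-once programs: the union bound for one choice
-/

set_option autoImplicit false

namespace Pool.Agent.STH

open Finset

theorem One_card {α : Type} [Fintype α] (P : α → Prop) [DecidablePred P] :
    Nat.card {x // P x} = (univ.filter P).card := by
  rw [Nat.card_eq_fintype_card, Fintype.card_subtype]

theorem One_d1 {n : ℕ} {R : Finset (Fin n)} {x x' u v : Pt n}
    (h : ∀ i, i ∉ R → x i ≠ x' i → u i ≠ v i) : dOff R x x' ≤ dist u v := by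
  unfold dOff dist
  refine card_le_card fun i hi => ?_
  rw [mem_filter] at hi ⊢
  exact ⟨mem_univ _, h i hi.2.1 hi.2.2⟩

theorem One_d2 {n : ℕ} {R : Finset (Fin n)} {x x' z w : Pt n} (hz : Off R x z) (hw : Off R x w) :
    dist z w ≤ dist (mix R z x') (mix R w x') := by
  unfold dist
  refine card_le_card fun i hi => ?_
  rw [mem_filter] at hi ⊢
  refine ⟨mem_univ _, ?_⟩
  have hR : i ∈ R := by
    by_contra h
    exact hi.2 ((hz i h).trans (hw i h).symm)
  unfold mix
  rw [if_pos hR, if_pos hR]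
  exact hi.2

theorem One_sep {n p t d : ℕ} {R : Finset (Fin n)} {x x' : Pt n} (hd : d ≤ dOff R x x')
    (ht : t ≤ d) {z : Fin p → Pt n} (hz : ∀ i, Off R x (z i))
    (hs : ∀ i j, i ≠ j → t ≤ dist (z i) (z j)) (i j : Fin (p + p)) (hij : i ≠ j) :
    t ≤ dist (Fin.append z (fun i => mix R (z i) x') i)
      (Fin.append z (fun i => mix R (z i) x') j) := by
  have hm : ∀ (u : Pt n) (i : Fin n), i ∉ R → mix R u x' i = x' i := by
    intro u i hi
    unfold mix
    rw [if_neg hi]
  induction i using Fin.addCases with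
  | left i =>
    induction j using Fin.addCases with
    | left j =>
      rw [Fin.append_left, Fin.append_left]
      exact hs i j fun h => hij (by rw [h])
    | right j =>
      rw [Fin.append_left, Fin.append_right]
      refine (ht.trans hd).trans (One_d1 fun l hl hne => ?_)
      rw [hz i l hl, hm _ l hl]
      exact hne
  | right i =>
    induction j using Fin.addCases with
    | left j =>
      rw [Fin.append_left, Fin.append_right]
      refine (ht.trans hd).trans (One_d1 fun l hl hne => ?_)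
      rw [hz j l hl, hm _ l hl]
      exact fun h => hne h.symm
    | right j =>
      rw [Fin.append_right, Fin.append_right]
      exact (hs i j fun h => hij (by rw [h])).trans (One_d2 (hz i) (hz j))

/-- the number of tuples in a cylinder -/
theorem One_cyl {n p : ℕ} (R : Finset (Fin n)) (x : Pt n) (S : Finset (Fin p → Pt n))
    (hS : ∀ z ∈ S, ∀ i, Off R x (z i)) : S.card ≤ (2 ^ R.card) ^ p := by
  classical
  set C : Finset (Pt n) := univ.filter fun z => Off R x z with hC
  have h1 : C.card ≤ 2 ^ R.card := by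
    have h2 : C.card ≤ (univ : Finset (R → Bool)).card := by
      refine card_le_card_of_injOn (fun z => fun i : R => z i) (fun z _ => mem_univ _) ?_
      intro z hz w hw h
      have hz1 : Off R x z := (mem_filter.1 (mem_coe.1 hz)).2
      have hw1 : Off R x w := (mem_filter.1 (mem_coe.1 hw)).2
      funext i
      by_cases hi : i ∈ R
      · exact congrFun h ⟨i, hi⟩
      · rw [hz1 i hi, hw1 i hi]
    have h3 : (univ : Finset (R → Bool)).card = 2 ^ R.card := by
      rw [card_univ, Fintype.card_fun, Fintype.card_bool, Fintype.card_coe]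
    rwa [h3] at h2
  have h2 : S ⊆ Fintype.piFinset fun _ : Fin p => C := by
    intro z hz
    rw [Fintype.mem_piFinset]
    intro i
    rw [hC, mem_filter]
    exact ⟨mem_univ _, hS z hz i⟩
  have h3 := card_le_card h2
  rw [Fintype.card_piFinset, prod_const, card_univ, Fintype.card_fin] at h3
  exact h3.trans (Nat.pow_le_pow_left h1 p)

/-- the size condition for the tuples -/
theorem One_size {Δ θ n r p t : ℝ} (hp : 1 ≤ p) (hθr : θ * n ≤ r) (hΔ : 16 * Δ ≤ θ) (hn : 0 ≤ n)
    (hr : 64 * p ≤ r) (ht : t ≤ θ * n / 20 + 1) :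
    2 * p + r / 8 + 2.08 * t ≤ 0.69 * r - 3 / 2 * Δ * n := by
  have h1 : 16 * (Δ * n) ≤ r := by
    have h2 := mul_le_mul_of_nonneg_right hΔ hn
    linarith
  have h2 : 3 / 2 * Δ * n = 3 / 2 * (Δ * n) := by ring
  rw [h2]
  linarith

theorem One_pow8 (t : ℕ) : (8 : ℝ) ^ t ≤ Real.exp (2.08 * t) := by
  have h1 : (8 : ℝ) ≤ Real.exp 2.08 := by
    have h2 : Real.log 8 ≤ 2.08 := by
      have h3 : (8 : ℝ) = 2 ^ 3 := by norm_num
      rw [h3, Real.log_pow]
      have h4 := Real.log_two_lt_d9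
      push_cast
      linarith
    rw [← Real.log_le_iff_le_exp (by norm_num)]
    exact h2
  calc (8 : ℝ) ^ t ≤ Real.exp 2.08 ^ t := pow_le_pow_left₀ (by norm_num) h1 t
    _ = Real.exp (2.08 * t) := by rw [← Real.exp_nat_mul, mul_comm]

theorem One_pow9 (r : ℕ) : (1 + 1 / 8 : ℝ) ^ r ≤ Real.exp (r / 8) := by
  have h1 : (1 + 1 / 8 : ℝ) ≤ Real.exp (1 / 8) := by
    have := Real.add_one_le_exp (1 / 8 : ℝ)
    linarith
  calc (1 + 1 / 8 : ℝ) ^ r ≤ Real.exp (1 / 8) ^ r := pow_le_pow_left₀ (by norm_num) h1 r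
    _ = Real.exp (r / 8) := by
      rw [← Real.exp_nat_mul]
      congr 1
      ring

theorem One_pow2 (r : ℕ) : Real.exp (0.69 * r) ≤ (2 : ℝ) ^ r := by
  have h1 : Real.exp 0.69 ≤ (2 : ℝ) := by
    rw [← Real.le_log_iff_exp_le (by norm_num)]
    have := Real.log_two_gt_d9
    linarith
  calc Real.exp (0.69 * r) = Real.exp 0.69 ^ r := by rw [← Real.exp_nat_mul, mul_comm]
    _ ≤ 2 ^ r := pow_le_pow_left₀ (Real.exp_pos _).le h1 r

theorem thm_One (h1 : St_Cls) (h2 : St_Tup) (h3 : St_Bal) : St_One := by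
  classical
  intro Δ θ τ k p hΔ hθ hθ' hτ hp hk hkap
  have hp0 : (0 : ℝ) < p := by
    by_contra h
    have h4 : (p : ℝ) = 0 := le_antisymm (not_lt.1 h) (Nat.cast_nonneg p)
    rw [h4, mul_zero] at hp
    linarith
  have hp1 : (1 : ℝ) ≤ p := by
    have h4 : 0 < p := by exact_mod_cast hp0
    exact_mod_cast h4
  have hθ0 : 0 < θ := by linarith
  refine ⟨⌈64 * (p : ℝ) / θ⌉₊ + 4 * p + 1, ?_⟩
  intro n hn a d M ha hd hM R hR x x' hdx
  have hnp : 4 * (p : ℝ) + 1 ≤ n := by
    have h4 : 4 * p + 1 ≤ n := by omega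
    exact_mod_cast h4
  have hnθ : 64 * (p : ℝ) ≤ θ * n := by
    have h4 : (⌈64 * (p : ℝ) / θ⌉₊ : ℝ) ≤ n := by
      have h5 : ⌈64 * (p : ℝ) / θ⌉₊ ≤ n := by omega
      exact_mod_cast h5
    have h5 := (Nat.le_ceil (64 * (p : ℝ) / θ)).trans h4
    rw [div_le_iff₀ hθ0] at h5
    linarith
  have hn0 : (0 : ℝ) < n := by linarith
  have hn0' : 0 < n := by exact_mod_cast hn0
  set r := R.card with hr
  have hRr : (a : ℝ) ≤ r := by exact_mod_cast hR
  have hθr : θ * n ≤ r := ha.trans hRr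
  have hr64 : 64 * (p : ℝ) ≤ r := hnθ.trans hθr
  -- the distance
  obtain ⟨t, ht⟩ : ∃ t : ℕ, t = min ⌈θ * n / 20⌉₊ d := ⟨_, rfl⟩
  have htd : t ≤ d := by rw [ht]; exact min_le_right _ _
  have hdn : dOff R x x' ≤ n := by
    unfold dOff
    exact (card_le_univ _).trans (by rw [Fintype.card_fin])
  have htn : t ≤ n := htd.trans (hdx.trans hdn)
  have htr : (t : ℝ) ≤ θ * n / 20 + 1 := by
    have h4 : (t : ℝ) ≤ (⌈θ * n / 20⌉₊ : ℝ) := by
      have h5 : t ≤ ⌈θ * n / 20⌉₊ := by rw [ht]; exact min_le_left _ _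
      exact_mod_cast h5
    have h5 := Nat.ceil_lt_add_one (a := θ * n / 20) (by positivity)
    linarith
  have htκ : min τ (θ / 20) * n ≤ t := by
    rcases min_choice ⌈θ * n / 20⌉₊ d with h4 | h4
    · rw [ht, h4]
      refine le_trans ?_ (Nat.le_ceil _)
      have h5 := mul_le_mul_of_nonneg_right (min_le_right τ (θ / 20)) hn0.le
      linarith
    · rw [ht, h4]
      refine le_trans ?_ hd
      exact mul_le_mul_of_nonneg_right (min_le_left τ (θ / 20)) hn0.le
  have hq : (((p + p : ℕ) : ℝ)) ^ 2 * (1 - (t : ℝ) / n) ^ k ≤ 1 := by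
    have h4 : (1 - (t : ℝ) / n) ^ k ≤ (1 - min τ (θ / 20)) ^ k := by
      refine pow_le_pow_left₀ ?_ ?_ k
      · have h5 : (t : ℝ) / n ≤ 1 := by
          rw [div_le_one hn0]
          exact_mod_cast htn
        linarith
      · have h5 : min τ (θ / 20) ≤ (t : ℝ) / n := by
          rw [le_div_iff₀ hn0]
          exact htκ
        linarith
    have h5 : (((p + p : ℕ) : ℝ)) ^ 2 = 4 * (p : ℝ) ^ 2 := by
      push_cast
      ring
    rw [h5]
    exact (mul_le_mul_of_nonneg_left h4 (by positivity)).trans hkap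
  -- the sets
  set Y : Fm n k M → Finset (Pt n) := fun ω =>
    univ.filter fun z => Off R x z ∧ Mod ω z ∧ Mod ω (mix R z x') with hY
  set e₁ : ℝ := Real.exp (-(3 / 2 * Δ * n)) with he1
  have he1p : 0 < e₁ := Real.exp_pos _
  set Bad : Finset (Fm n k M) := univ.filter fun ω => 2 ^ r * e₁ < ((Y ω).card : ℝ) with hBad
  have hcardY : ∀ ω : Fm n k M,
      Nat.card {z : Pt n // Off R x z ∧ Mod ω z ∧ Mod ω (mix R z x')} = (Y ω).card := fun ω =>
    One_card _
  have hcardBad : Nat.card {ω : Fm n k M // 2 ^ r * e₁ <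
      ((Nat.card {z : Pt n // Off R x z ∧ Mod ω z ∧ Mod ω (mix R z x')} : ℕ) : ℝ)} = Bad.card := by
    rw [One_card]
    simp only [hcardY]
    rfl
  rw [hcardBad]
  set Sep : Finset (Fin p → Pt n) := univ.filter fun z => (∀ i, Off R x (z i)) ∧
    ∀ i j, i ≠ j → t ≤ dist (z i) (z j) with hSep
  set Q : Fm n k M → (Fin p → Pt n) → Prop := fun ω z =>
    ∀ i, Mod ω (z i) ∧ Mod ω (mix R (z i) x') with hQ
  -- lower bound
  have hlow : ∀ ω ∈ Bad, (2 ^ r * e₁ / 2) ^ p ≤ ((Sep.filter fun z => Q ω z).card : ℝ) := by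
    intro ω hω
    have hω1 : 2 ^ r * e₁ < ((Y ω).card : ℝ) := (mem_filter.1 hω).2
    have h4 := h2 n p t (Y ω) ((1 + 1 / 8) ^ r * (1 / (1 / 8)) ^ t) (by
      intro z hz
      have hz1 : Off R x z := (mem_filter.1 hz).2.1
      have h5 := h3 n R t (1 / 8) (by norm_num) (by norm_num) z
      refine le_trans ?_ h5
      rw [One_card]
      have h6 : ((Y ω).filter fun x' => dist z x' < t).card ≤
          (univ.filter fun x' : Pt n => Off R z x' ∧ dist z x' < t).card := by
        refine card_le_card fun w hw => ?_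
        rw [mem_filter] at hw
        rw [mem_filter]
        have hw1 : Off R x w := (mem_filter.1 hw.1).2.1
        exact ⟨mem_univ _, fun i hi => (hw1 i hi).trans (hz1 i hi).symm, hw.2⟩
      exact_mod_cast h6) (by
      refine le_trans ?_ hω1.le
      have h5 : (1 / (1 / 8) : ℝ) = 8 := by norm_num
      rw [h5]
      have h6 : 2 * (p : ℝ) ≤ Real.exp (2 * p) := by
        have := Real.add_one_le_exp (2 * (p : ℝ))
        linarith
      have h7 : 2 * (p : ℝ) * ((1 + 1 / 8) ^ r * 8 ^ t) ≤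
          Real.exp (2 * p) * (Real.exp (r / 8) * Real.exp (2.08 * t)) := by
        refine mul_le_mul h6 ?_ (by positivity) (Real.exp_pos _).le
        exact mul_le_mul (One_pow9 r) (One_pow8 t) (by positivity) (Real.exp_pos _).le
      refine h7.trans ?_
      rw [← Real.exp_add, ← Real.exp_add]
      have h8 : Real.exp (0.69 * r) * e₁ ≤ 2 ^ r * e₁ :=
        mul_le_mul_of_nonneg_right (One_pow2 r) he1p.le
      refine le_trans ?_ h8
      rw [he1, ← Real.exp_add]
      refine Real.exp_le_exp.2 ?_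
      have h9 := One_size hp1 hθr hθ hn0.le hr64 htr
      linarith)
    have h5 : (2 ^ r * e₁ / 2) ^ p ≤ (((Y ω).card : ℝ) / 2) ^ p := by
      refine pow_le_pow_left₀ (by positivity) ?_ p
      linarith
    refine h5.trans (h4.trans ?_)
    rw [One_card]
    have h6 : (univ.filter fun z : Fin p → Pt n => (∀ i, z i ∈ Y ω) ∧
        ∀ i j, i ≠ j → t ≤ dist (z i) (z j)).card ≤ (Sep.filter fun z => Q ω z).card := by
      refine card_le_card fun z hz => ?_
      rw [mem_filter] at hz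
      rw [mem_filter, hSep, mem_filter]
      have h7 : ∀ i, Off R x (z i) ∧ Mod ω (z i) ∧ Mod ω (mix R (z i) x') := fun i =>
        (mem_filter.1 (hz.2.1 i)).2
      exact ⟨⟨mem_univ _, fun i => (h7 i).1, hz.2.2⟩, fun i => (h7 i).2⟩
    exact_mod_cast h6
  -- upper bound
  set W : ℝ := (2 * (n : ℝ)) ^ (k * M) *
    Real.exp (-((M : ℝ) * (((p + p : ℕ) : ℝ) - 1 / 2) / 2 ^ k)) with hW
  have hup : ∀ z ∈ Sep, (((univ : Finset (Fm n k M)).filter fun ω => Q ω z).card : ℝ) ≤ W := by
    intro z hz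
    rw [hSep, mem_filter] at hz
    have h4 := h1 n k M (p + p) t (Fin.append z (fun i => mix R (z i) x')) hn0' htn
      (One_sep hdx htd hz.2.1 hz.2.2) hq
    refine le_trans ?_ h4
    rw [One_card]
    have h5 : ((univ : Finset (Fm n k M)).filter fun ω => Q ω z).card ≤
        ((univ : Finset (Fm n k M)).filter fun ω =>
          ∀ i, Mod ω (Fin.append z (fun i => mix R (z i) x') i)).card := by
      refine card_le_card fun ω hω => ?_
      rw [mem_filter] at hω ⊢
      refine ⟨mem_univ _, fun i => ?_⟩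
      induction i using Fin.addCases with
      | left i =>
        rw [Fin.append_left]
        exact (hω.2 i).1
      | right i =>
        rw [Fin.append_right]
        exact (hω.2 i).2
    exact_mod_cast h5
  -- double counting
  have hdc : ∑ ω ∈ (univ : Finset (Fm n k M)), ((Sep.filter fun z => Q ω z).card : ℝ) =
      ∑ z ∈ Sep, (((univ : Finset (Fm n k M)).filter fun ω => Q ω z).card : ℝ) := by
    have h4 := sum_card_bipartiteAbove_eq_sum_card_bipartiteBelow (s := (univ : Finset (Fm n k M)))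
      (t := Sep) Q
    unfold bipartiteAbove bipartiteBelow at h4
    exact_mod_cast h4
  have hA : (Bad.card : ℝ) * (2 ^ r * e₁ / 2) ^ p ≤
      ∑ ω ∈ (univ : Finset (Fm n k M)), ((Sep.filter fun z => Q ω z).card : ℝ) := by
    calc (Bad.card : ℝ) * (2 ^ r * e₁ / 2) ^ p = ∑ ω ∈ Bad, (2 ^ r * e₁ / 2) ^ p := by
          rw [sum_const, nsmul_eq_mul]
      _ ≤ ∑ ω ∈ Bad, ((Sep.filter fun z => Q ω z).card : ℝ) := sum_le_sum hlow
      _ ≤ _ := sum_le_sum_of_subset_of_nonneg (subset_univ _) fun _ _ _ => Nat.cast_nonneg _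
  have hB : ∑ z ∈ Sep, (((univ : Finset (Fm n k M)).filter fun ω => Q ω z).card : ℝ) ≤
      (2 ^ r) ^ p * W := by
    have hW0 : 0 ≤ W := by positivity
    calc ∑ z ∈ Sep, (((univ : Finset (Fm n k M)).filter fun ω => Q ω z).card : ℝ)
        ≤ ∑ z ∈ Sep, W := sum_le_sum hup
      _ = (Sep.card : ℝ) * W := by rw [sum_const, nsmul_eq_mul]
      _ ≤ (2 ^ r) ^ p * W := by
        refine mul_le_mul_of_nonneg_right ?_ hW0
        have h4 := One_cyl R x Sep fun z hz => (mem_filter.1 hz).2.1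
        exact_mod_cast h4
  rw [hdc] at hA
  have hC := hA.trans hB
  have hD : (2 ^ r * e₁ / 2 : ℝ) ^ p = (2 ^ r) ^ p * (e₁ / 2) ^ p := by
    rw [← mul_pow]
    congr 1
    ring
  rw [hD] at hC
  have hE : (Bad.card : ℝ) * (e₁ / 2) ^ p ≤ W := by
    have h4 : (0 : ℝ) < (2 ^ r) ^ p := by positivity
    refine le_of_mul_le_mul_left ?_ h4
    calc (2 ^ r) ^ p * ((Bad.card : ℝ) * (e₁ / 2) ^ p) =
        (Bad.card : ℝ) * ((2 ^ r) ^ p * (e₁ / 2) ^ p) := by ring
      _ ≤ _ := hC
  -- the exponents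
  have hF : Real.exp (-((M : ℝ) * (((p + p : ℕ) : ℝ) - 1 / 2) / 2 ^ k)) ≤
      Real.exp (-(4 * n)) * (e₁ / 2) ^ p := by
    have h4 : Real.exp (-(p : ℝ)) ≤ (1 / 2 : ℝ) ^ p := by
      have h5 : Real.exp (-1) ≤ (1 / 2 : ℝ) := by
        rw [Real.exp_neg, one_div]
        have h6 : (2 : ℝ) ≤ Real.exp 1 := by
          have := Real.add_one_le_exp (1 : ℝ)
          linarith
        exact inv_anti₀ (by norm_num) h6
      calc Real.exp (-(p : ℝ)) = Real.exp (-1) ^ p := by
            rw [← Real.exp_nat_mul]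
            congr 1
            ring
        _ ≤ (1 / 2 : ℝ) ^ p := pow_le_pow_left₀ (Real.exp_pos _).le h5 p
    have h5 : e₁ ^ p = Real.exp (-(3 / 2 * Δ * n) * p) := by
      rw [he1, ← Real.exp_nat_mul, mul_comm]
    have h6 : Real.exp (-(4 * n)) * (Real.exp (-(3 / 2 * Δ * n) * p) * Real.exp (-(p : ℝ))) ≤
        Real.exp (-(4 * n)) * (e₁ / 2) ^ p := by
      refine mul_le_mul_of_nonneg_left ?_ (Real.exp_pos _).le
      have h7 : (e₁ / 2) ^ p = Real.exp (-(3 / 2 * Δ * n) * p) * (1 / 2 : ℝ) ^ p := by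
        rw [← h5, ← mul_pow]
        congr 1
        ring
      rw [h7]
      exact mul_le_mul_of_nonneg_left h4 (Real.exp_pos _).le
    refine le_trans ?_ h6
    rw [← Real.exp_add, ← Real.exp_add]
    refine Real.exp_le_exp.2 ?_
    have h8 : Δ * n - 1 ≤ (M : ℝ) / 2 ^ k := by
      have h9 : Δ * n * 2 ^ k - 1 < (M : ℝ) := by
        rw [hM]
        exact Nat.sub_one_lt_floor _
      have h10 : (1 : ℝ) ≤ 2 ^ k := one_le_pow₀ (by norm_num)
      rw [le_div_iff₀ (by positivity)]
      linarith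
    have h9 : (M : ℝ) * (((p + p : ℕ) : ℝ) - 1 / 2) / 2 ^ k =
        (M : ℝ) / 2 ^ k * (2 * p - 1 / 2) := by
      push_cast
      ring
    rw [h9]
    have h10 : (Δ * n - 1) * (2 * (p : ℝ) - 1 / 2) ≤ (M : ℝ) / 2 ^ k * (2 * p - 1 / 2) :=
      mul_le_mul_of_nonneg_right h8 (by linarith)
    have h11 : 10 * (n : ℝ) ≤ Δ * p * n := mul_le_mul_of_nonneg_right hp hn0.le
    have h12 : Δ * n ≤ 1 / 128 * n := mul_le_mul_of_nonneg_right (by linarith) hn0.le
    have h13 : (Δ * n - 1) * (2 * (p : ℝ) - 1 / 2) =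
        2 * (Δ * p * n) - 2 * p - 1 / 2 * (Δ * n) + 1 / 2 := by ring
    have h14 : -(3 / 2 * Δ * (n : ℝ)) * p = -(3 / 2 * (Δ * p * n)) := by ring
    rw [h14]
    rw [h13] at h10
    linarith
  have hG : (Bad.card : ℝ) * (e₁ / 2) ^ p ≤
      ((2 * (n : ℝ)) ^ (k * M) * Real.exp (-(4 * n))) * (e₁ / 2) ^ p := by
    refine hE.trans ?_
    rw [hW, mul_assoc]
    exact mul_le_mul_of_nonneg_left hF (by positivity)
  exact le_of_mul_le_mul_right hG (by positivity)

end Pool.Agent.STH
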