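import Pool.Agent.STH.Prog

/-!
# Strong exponential lower bounds for read-once programs: statements of the modules
-/

set_option autoImplicit false

namespace Pool.Agent.STH

open Finset

/-- the points of the cube -/
abbrev Pt (n : ℕ) := Fin n → Bool

/-- `z` on `R`, `x` off `R` -/
def mix {n : ℕ} (R : Finset (Fin n)) (z x : Pt n) : Pt n := fun i => if i ∈ R then z i else x i

/-- `x'` agrees with `x` off `R` -/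
def Off {n : ℕ} (R : Finset (Fin n)) (x x' : Pt n) : Prop := ∀ i, i ∉ R → x' i = x i

/-- number of differences off `R` -/
def dOff {n : ℕ} (R : Finset (Fin n)) (x x' : Pt n) : ℕ :=
  (univ.filter fun i => i ∉ R ∧ x i ≠ x' i).card

/-- number of differences -/
def dist {n : ℕ} (x x' : Pt n) : ℕ := (univ.filter fun i => x i ≠ x' i).card

/-- property (Q): `a` = smallest size of `R`, `d` = smallest distance off `R`, `Y` = density. -/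
def PropQ {n : ℕ} (F : Pt n → Prop) (a d : ℕ) (Y : ℝ) : Prop :=
  ∀ (R : Finset (Fin n)), a ≤ R.card → ∀ x x' : Pt n, d ≤ dOff R x x' →
    ((Nat.card {z : Pt n // Off R x z ∧ F z ∧ F (mix R z x')} : ℕ) : ℝ) ≤ 2 ^ R.card * Y

/-- balls of radius `< d` have at most `B` points -/
def BallLe (n d : ℕ) (B : ℝ) : Prop :=
  ∀ x : Pt n, ((Nat.card {x' : Pt n // dist x x' < d} : ℕ) : ℝ) ≤ B

/-- [Nod] abstract form of the lemma for one node. -/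
def St_Nod : Prop := ∀ (K : Type) [Field K] (P Z : Type) [Fintype P] [Fintype Z]
  (f : P → Z → Prop) (g : Z → K) (α β : P → K) (near : P → P → Prop) (B Y : ℝ),
  0 ≤ Y → 1 ≤ B → (∀ A, ((Nat.card {A' : P // near A A'} : ℕ) : ℝ) ≤ B) →
  (∀ A A', ¬ near A A' → ((Nat.card {z : Z // f A z ∧ f A' z} : ℕ) : ℝ) ≤ Y) →
  ((Nat.card {q : P × Z // f q.1 q.2} : ℕ) : ℝ) ≤
    ((Nat.card {q : P × Z // (f q.1 q.2 ∧ α q.1 + β q.1 * g q.2 ≠ 1) ∨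
        (¬ f q.1 q.2 ∧ α q.1 + β q.1 * g q.2 ≠ 0)} : ℕ) : ℝ)
      + 2 * (Fintype.card P : ℝ) * Y + 8 * B * (Fintype.card Z : ℝ)

/-- [Cyl] the node lemma on a union of cylinders. -/
def St_Cyl : Prop := ∀ (K : Type) [Field K] (n : ℕ) (F : Pt n → Prop) (a d : ℕ) (Y B : ℝ),
  0 ≤ Y → 1 ≤ B → PropQ F a d Y → BallLe n d B →
  ∀ (R : Finset (Fin n)) (D : Pt n → Prop) (G g : Pt n → K), a ≤ R.card →
    (∀ x x', D x → Off R x x' → D x') →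
    (∀ x x', (∀ i ∈ R, x i = x' i) → g x = g x') →
    (∀ x, D x → ∃ α β : K, ∀ x', Off R x x' → G x' = α + β * g x') →
    ((Nat.card {x // D x ∧ F x} : ℕ) : ℝ) ≤
      ((Nat.card {x // D x ∧ (F x ∧ G x ≠ 1 ∨ ¬ F x ∧ G x ≠ 0)} : ℕ) : ℝ)
        + 2 * ((Nat.card {x // D x} : ℕ) : ℝ) * Y + 8 * B * 2 ^ R.card

/-- [Pth] the stopping edges. -/
def St_Pth : Prop := ∀ (K : Type) [Field K] (n s m : ℕ) (P : Program K n s m) (r : Fin s)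
  (a E : ℕ), m ≤ E → 2 * a ≤ E → E ≤ n →
  ∃ (lab : Pt n → Option (Fin s × Bool)) (R : Option (Fin s × Bool) → Finset (Fin n))
    (g : Option (Fin s × Bool) → Pt n → K),
    (∀ l x x', (∀ i ∈ R l, x i = x' i) → g l x = g l x') ∧
    ∀ x, a ≤ (R (lab x)).card ∧ (R (lab x)).card ≤ E ∧
      ∃ α β : K, ∀ x', Off (R (lab x)) x x' →
        lab x' = lab x ∧ P.val r x' = α + β * g (lab x) x'

/-- [Sum] the lower bound from (Q). -/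
def St_Sum : Prop := ∀ (K : Type) [Field K] (n s m : ℕ) (P : Program K n s m) (r : Fin s)
  (F : Pt n → Prop) (a d E : ℕ) (Y B : ℝ), 0 ≤ Y → 1 ≤ B → m ≤ E → 2 * a ≤ E → E ≤ n →
  PropQ F a d Y → BallLe n d B →
  ((Nat.card {x // F x} : ℕ) : ℝ) ≤
    ((Nat.card {x // F x ∧ P.val r x ≠ 1 ∨ ¬ F x ∧ P.val r x ≠ 0} : ℕ) : ℝ)
      + 2 * 2 ^ n * Y + 8 * B * 2 ^ E * (2 * s + 1)

/-- a formula with `M` clauses of `k` literals -/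
abbrev Fm (n k M : ℕ) := Fin M → Fin k → Fin n × Bool

/-- model -/
def Mod {n k M : ℕ} (ω : Fm n k M) (x : Pt n) : Prop := ∀ m, ∃ j, x (ω m j).1 = (ω m j).2

/-- [Cls] few formulas have `q` given far apart models. -/
def St_Cls : Prop := ∀ (n k M q t : ℕ) (x : Fin q → Pt n), 0 < n → t ≤ n →
  (∀ i j, i ≠ j → t ≤ dist (x i) (x j)) →
  (q : ℝ) ^ 2 * (1 - (t : ℝ) / n) ^ k ≤ 1 →
  ((Nat.card {ω : Fm n k M // ∀ i, Mod ω (x i)} : ℕ) : ℝ) ≤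
    (2 * (n : ℝ)) ^ (k * M) * Real.exp (-((M : ℝ) * (q - 1 / 2) / 2 ^ k))

/-- [Tup] many separated tuples. -/
def St_Tup : Prop := ∀ (n p t : ℕ) (Yy : Finset (Pt n)) (b : ℝ),
  (∀ x ∈ Yy, (((Yy.filter fun x' => dist x x' < t).card : ℕ) : ℝ) ≤ b) →
  2 * (p : ℝ) * b ≤ (Yy.card : ℝ) →
  ((Yy.card : ℝ) / 2) ^ p ≤
    ((Nat.card {z : Fin p → Pt n // (∀ i, z i ∈ Yy) ∧ ∀ i j, i ≠ j → t ≤ dist (z i) (z j)} : ℕ) : ℝ)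

/-- [Bal] the bound for balls. -/
def St_Bal : Prop := ∀ (n : ℕ) (R : Finset (Fin n)) (t : ℕ) (ξ : ℝ), 0 < ξ → ξ ≤ 1 →
  ∀ x : Pt n, ((Nat.card {x' : Pt n // Off R x x' ∧ dist x x' < t} : ℕ) : ℝ) ≤
    (1 + ξ) ^ R.card * (1 / ξ) ^ t

/-- [One] the union bound for one choice of `R`, `x`, `x'`. -/
def St_One : Prop := ∀ (Δ θ τ : ℝ) (k p : ℕ), 0 < Δ → 16 * Δ ≤ θ → θ ≤ 1 / 8 → 0 < τ →
  10 ≤ Δ * p → 2 ≤ k → 4 * (p : ℝ) ^ 2 * (1 - min τ (θ / 20)) ^ k ≤ 1 →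
  ∃ n₀ : ℕ, ∀ n : ℕ, n₀ ≤ n → ∀ (a d M : ℕ), θ * n ≤ a → τ * n ≤ d →
    M = ⌊Δ * n * 2 ^ k⌋₊ → ∀ R : Finset (Fin n), a ≤ R.card → ∀ x x' : Pt n, d ≤ dOff R x x' →
    ((Nat.card {ω : Fm n k M // 2 ^ R.card * Real.exp (-(3 / 2 * Δ * n)) <
      ((Nat.card {z : Pt n // Off R x z ∧ Mod ω z ∧ Mod ω (mix R z x')} : ℕ) : ℝ)} : ℕ) : ℝ) ≤
      (2 * (n : ℝ)) ^ (k * M) * Real.exp (-(4 * n))

/-- [Ran] the random formula. -/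
def St_Ran : Prop := ∀ (Δ θ τ : ℝ) (k p : ℕ), 0 < Δ → 16 * Δ ≤ θ → θ ≤ 1 / 8 → 0 < τ →
  10 ≤ Δ * p → 2 ≤ k → 4 * (p : ℝ) ^ 2 * (1 - min τ (θ / 20)) ^ k ≤ 1 →
  ∃ n₀ : ℕ, ∀ n : ℕ, n₀ ≤ n → ∀ (a d M : ℕ), θ * n ≤ a → τ * n ≤ d →
    M = ⌊Δ * n * 2 ^ k⌋₊ →
    ∃ ω : Fm n k M, 2 ^ n * Real.exp (-(5 / 4 * Δ * n)) / 2 ≤ ((Nat.card {x // Mod ω x} : ℕ) : ℝ) ∧
      PropQ (Mod ω) a d (Real.exp (-(3 / 2 * Δ * n)))

/-- [Fin] the final statement. -/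
def St_Fin : Prop := ∃ C : ℝ, ∀ k : ℕ, 2 ≤ k → ∃ c : ℝ, 0 < c ∧ ∃ K₀ n₀ : ℕ, ∀ n : ℕ, n₀ ≤ n →
  ∃ φ : CNF n, φ.length ≤ K₀ * n ∧ (∀ c ∈ φ, c.length ≤ k) ∧
    ∀ (K : Type) [Field K] (s m : ℕ) (P : Program K n s m) (v : Fin s),
      ((Nat.card {x : Fin n → Bool // Sat φ x ∧ P.val v x ≠ 1 ∨ ¬ Sat φ x ∧ P.val v x ≠ 0} : ℕ) : ℝ)
        ≤ (1 - (2 : ℝ) ^ (-(c * n))) * ((Nat.card {x : Fin n → Bool // Sat φ x} : ℕ) : ℝ) →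
      (2 : ℝ) ^ ((1 - C * Real.log k ^ 2 / k) * n) ≤ s * 2 ^ m

end Pool.Agent.STH
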