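import Pool.Agent.STH.Defs

/-!
# The final statement from the sum lemma, the ball lemma and the random formula
-/

set_option autoImplicit false

namespace Pool.Agent.STH

open Finset

/-- the formula as a list -/
private noncomputable def Fin_cnf {n k M : ℕ} (ω : Fm n k M) : CNF n :=
  List.ofFn fun m => List.ofFn fun j => ω m j

private theorem Fin_sat {n k M : ℕ} (ω : Fm n k M) (x : Pt n) : Sat (Fin_cnf ω) x ↔ Mod ω x := by
  unfold Sat Fin_cnf Mod
  constructor
  · intro h m
    obtain ⟨l, hl, hx⟩ := h (List.ofFn fun j => ω m j) (by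
      rw [List.mem_ofFn]; exact ⟨m, rfl⟩)
    rw [List.mem_ofFn] at hl
    obtain ⟨j, rfl⟩ := hl
    exact ⟨j, hx⟩
  · intro h c hc
    rw [List.mem_ofFn] at hc
    obtain ⟨m, rfl⟩ := hc
    obtain ⟨j, hj⟩ := h m
    refine ⟨ω m j, ?_, hj⟩
    rw [List.mem_ofFn]
    exact ⟨j, rfl⟩

private theorem Fin_ball {n d : ℕ} (x : Pt n) :
    Nat.card {x' : Pt n // dist x x' < d} =
      Nat.card {x' : Pt n // Off (univ : Finset (Fin n)) x x' ∧ dist x x' < d} := by
  apply Nat.card_congr
  apply Equiv.subtypeEquivRight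
  intro x'
  constructor
  · intro h
    exact ⟨fun i hi => absurd (mem_univ i) hi, h⟩
  · intro h
    exact h.2

/-- real arithmetic of the parameters -/
private theorem Fin_k (k : ℕ) (hk : 2 ≤ k) (l : ℝ) (hl : l = 2400 * Real.log k ^ 2 / k)
    (hl1 : l < 1) (p : ℕ) (hp : (p : ℝ) ≤ 1281 / l) :
    4 * (p : ℝ) ^ 2 * (1 - min (l / 8 / (3 * Real.log (4 / (l / 8)))) ((l / 8) / 20)) ^ k ≤ 1 := by
  have hk0 : (2 : ℝ) ≤ k := by exact_mod_cast hk
  have hk0' : (0 : ℝ) < k := by linarith
  have hlog2 : 0.6931471803 < Real.log 2 := Real.log_two_gt_d9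
  have hlogk : Real.log 2 ≤ Real.log k := Real.log_le_log (by norm_num) hk0
  have hlk : 0 < Real.log k := by linarith
  have hl0 : 0 < l := by rw [hl]; positivity
  -- `32 / l ≤ k`
  have h32 : 32 / l ≤ k := by
    rw [div_le_iff₀ hl0, hl]
    rw [mul_div_assoc', mul_comm (k : ℝ), mul_div_assoc, div_self hk0'.ne', mul_one]
    nlinarith
  have h32' : 4 / (l / 8) = 32 / l := by
    field_simp
    norm_num
  have hL : Real.log (32 / l) ≤ Real.log k := Real.log_le_log (by positivity) h32
  have hL1 : 1 ≤ Real.log (32 / l) := by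
    have h1 : (4 : ℝ) ≤ 32 / l := by
      rw [le_div_iff₀ hl0]; linarith
    have h2 : Real.log 4 ≤ Real.log (32 / l) := Real.log_le_log (by norm_num) h1
    have h3 : Real.log 4 = 2 * Real.log 2 := by
      rw [show (4 : ℝ) = 2 ^ 2 by norm_num, Real.log_pow]
      norm_num
    linarith
  set m : ℝ := min (l / 8 / (3 * Real.log (4 / (l / 8)))) ((l / 8) / 20) with hm
  have hm0 : l / (160 * Real.log k) ≤ m := by
    rw [hm, h32']
    apply le_min
    · rw [div_div, div_le_div_iff₀ (by positivity) (by positivity)]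
      nlinarith
    · rw [div_div, div_le_div_iff₀ (by positivity) (by positivity)]
      nlinarith
  have hmk : 15 * Real.log k ≤ m * k := by
    have h1 : l / (160 * Real.log k) * k ≤ m * k := mul_le_mul_of_nonneg_right hm0 hk0'.le
    have h2 : l / (160 * Real.log k) * k = 15 * Real.log k := by
      rw [hl]
      field_simp
      norm_num
    linarith
  have hm1 : m ≤ 1 := by
    have : m ≤ l / 8 / 20 := min_le_right _ _
    linarith
  have hpow : (1 - m) ^ k ≤ Real.exp (-(15 * Real.log k)) := by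
    have h1 : 1 - m ≤ Real.exp (-m) := by
      have := Real.add_one_le_exp (-m)
      linarith
    calc (1 - m) ^ k ≤ (Real.exp (-m)) ^ k := pow_le_pow_left₀ (by linarith) h1 k
      _ = Real.exp (-(m * k)) := by
          rw [← Real.exp_nat_mul]
          congr 1
          ring
      _ ≤ _ := Real.exp_le_exp.mpr (by linarith)
  have hexp : Real.exp (-(15 * Real.log k)) = 1 / (k : ℝ) ^ 15 := by
    rw [Real.exp_neg, one_div, mul_comm, Real.exp_mul, Real.exp_log hk0']
    norm_num
  rw [hexp] at hpow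
  have hp0 : (0 : ℝ) ≤ p := by positivity
  have hp2 : (p : ℝ) ≤ 41 * k := by
    have : 1281 / l = (1281 / 32) * (32 / l) := by
      field_simp
    rw [this] at hp
    nlinarith
  have hp3 : 4 * (p : ℝ) ^ 2 ≤ 6724 * (k : ℝ) ^ 2 := by
    nlinarith
  have hk13 : (6724 : ℝ) ≤ (k : ℝ) ^ 13 := by
    calc (6724 : ℝ) ≤ 2 ^ 13 := by norm_num
      _ ≤ (k : ℝ) ^ 13 := pow_le_pow_left₀ (by norm_num) hk0 13
  calc 4 * (p : ℝ) ^ 2 * (1 - m) ^ k ≤ (6724 * (k : ℝ) ^ 2) * (1 / (k : ℝ) ^ 15) := by
        apply mul_le_mul hp3 hpow _ (by positivity)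
        exact pow_nonneg (by linarith) _
    _ ≤ ((k : ℝ) ^ 13 * (k : ℝ) ^ 2) * (1 / (k : ℝ) ^ 15) := by
        apply mul_le_mul_of_nonneg_right _ (by positivity)
        exact mul_le_mul_of_nonneg_right hk13 (by positivity)
    _ = 1 := by
        field_simp

/-- the final arithmetic -/
private theorem Fin_ar (l : ℝ) (hl0 : 0 < l) (hl1 : l < 1) : ∃ n₁ : ℕ, ∀ n : ℕ, n₁ ≤ n →
    ∀ (N W : ℝ) (E : ℕ) (B S : ℝ), 1 ≤ S →
    (E : ℝ) ≤ 4 * (l / 8) * n →
    B = Real.exp ((7 / 12) * (l / 8) * n) * (32 / l) →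
    2 ^ n * Real.exp (-(5 / 4 * (l / 128) * n)) / 2 ≤ N →
    W ≤ (1 - (2 : ℝ) ^ (-(l / 128 / (10 * Real.log 2) * n))) * N →
    N ≤ W + 2 * 2 ^ n * Real.exp (-(3 / 2 * (l / 128) * n)) + 8 * B * 2 ^ E * (3 * S) →
    (2 : ℝ) ^ ((1 - l) * n) ≤ S := by
  obtain ⟨n₁, hn₁⟩ := exists_nat_ge ((Real.log (96 * (32 / l)) + 3) * 1000 / l)
  refine ⟨n₁, fun n hn N W E B S hs1 hE hB hN hW hS => ?_⟩
  have hnR : (Real.log (96 * (32 / l)) + 3) * 1000 / l ≤ n := hn₁.trans (by exact_mod_cast hn)
  have hlog : 0 ≤ Real.log (96 * (32 / l)) := by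
    apply Real.log_nonneg
    have : (1 : ℝ) ≤ 32 / l := by rw [le_div_iff₀ hl0]; linarith
    linarith
  have hln : (Real.log (96 * (32 / l)) + 3) * 1000 ≤ l * n := by
    rw [div_le_iff₀ hl0] at hnR
    linarith
  have hlog2 : 0.6931471803 < Real.log 2 := Real.log_two_gt_d9
  have hlog2' : Real.log 2 < 0.6931471808 := Real.log_two_lt_d9
  have h2n : (2 : ℝ) ^ n = Real.exp (Real.log 2 * n) := by
    rw [Real.exp_mul, Real.exp_log (by norm_num), Real.rpow_natCast]
  have h2c : (2 : ℝ) ^ (-(l / 128 / (10 * Real.log 2) * n)) = Real.exp (-(l / 1280 * n)) := by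
    rw [Real.rpow_def_of_pos (by norm_num)]
    congr 1
    field_simp
    ring
  have h2E : (2 : ℝ) ^ E ≤ Real.exp (Real.log 2 * (l / 2 * n)) := by
    have : (2 : ℝ) ^ E = Real.exp (Real.log 2 * E) := by
      rw [Real.exp_mul, Real.exp_log (by norm_num), Real.rpow_natCast]
    rw [this]
    apply Real.exp_le_exp.mpr
    apply mul_le_mul_of_nonneg_left _ (by linarith)
    linarith
  have hln0 : (0 : ℝ) ≤ l * n := by positivity
  -- the left side
  rw [h2c] at hW
  have hkey : Real.exp (-(l / 1280 * n)) * N ≤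
      2 * 2 ^ n * Real.exp (-(3 / 2 * (l / 128) * n)) + 8 * B * 2 ^ E * (3 * S) := by
    linarith
  have hN' : Real.exp (-(l / 1280 * n)) * (2 ^ n * Real.exp (-(5 / 4 * (l / 128) * n)) / 2) ≤
      Real.exp (-(l / 1280 * n)) * N := mul_le_mul_of_nonneg_left hN (Real.exp_pos _).le
  have he1 : Real.exp (-(l / 1280 * n)) * (2 ^ n * Real.exp (-(5 / 4 * (l / 128) * n)) / 2) =
      2 ^ n * Real.exp (-(27 / 20 * (l / 128) * n)) / 2 := by
    rw [show -(27 / 20 * (l / 128) * (n : ℝ)) = -(l / 1280 * n) + -(5 / 4 * (l / 128) * n) by ring,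
      Real.exp_add]
    ring
  have he2 : Real.exp (-(3 / 2 * (l / 128) * n)) ≤ Real.exp (-(27 / 20 * (l / 128) * n)) / 8 := by
    have h8 : (8 : ℝ) ≤ Real.exp 3 := by
      have h1 := Real.add_one_le_exp (1 : ℝ)
      have h3 : Real.exp 3 = Real.exp 1 ^ 3 := by
        rw [← Real.exp_nat_mul]; norm_num
      rw [h3]
      have : (2 : ℝ) ^ 3 ≤ Real.exp 1 ^ 3 := pow_le_pow_left₀ (by norm_num) (by linarith) 3
      linarith
    rw [le_div_iff₀ (by norm_num)]
    calc Real.exp (-(3 / 2 * (l / 128) * n)) * 8 ≤ Real.exp (-(3 / 2 * (l / 128) * n)) * Real.exp 3 :=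
          mul_le_mul_of_nonneg_left h8 (Real.exp_pos _).le
      _ = Real.exp (-(3 / 2 * (l / 128) * n) + 3) := by rw [Real.exp_add]
      _ ≤ _ := Real.exp_le_exp.mpr (by nlinarith)
  have h2n0 : (0 : ℝ) < 2 ^ n := by positivity
  have hmain : 2 ^ n * Real.exp (-(27 / 20 * (l / 128) * n)) / 4 ≤ 8 * B * 2 ^ E * (3 * S) := by
    have : 2 * 2 ^ n * Real.exp (-(3 / 2 * (l / 128) * n)) ≤
        2 * 2 ^ n * (Real.exp (-(27 / 20 * (l / 128) * n)) / 8) :=
      mul_le_mul_of_nonneg_left he2 (by positivity)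
    nlinarith
  have hB0 : 0 < B := by rw [hB]; positivity
  have h3 : 8 * B * 2 ^ E * (3 * S) ≤ 8 * B * Real.exp (Real.log 2 * (l / 2 * n)) * (3 * S) := by
    apply mul_le_mul_of_nonneg_right _ (by linarith)
    exact mul_le_mul_of_nonneg_left h2E (by positivity)
  have h4 : 2 ^ n * Real.exp (-(27 / 20 * (l / 128) * n)) ≤
      Real.exp ((7 / 12) * (l / 8) * n) * (96 * (32 / l)) * Real.exp (Real.log 2 * (l / 2 * n)) * S := by
    have : 8 * B * Real.exp (Real.log 2 * (l / 2 * n)) * (3 * S) * 4 =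
      Real.exp ((7 / 12) * (l / 8) * n) * (96 * (32 / l)) * Real.exp (Real.log 2 * (l / 2 * n)) * S := by
      rw [hB]; ring
    linarith
  have h5 : (96 * (32 / l)) = Real.exp (Real.log (96 * (32 / l))) := by
    rw [Real.exp_log (by positivity)]
  rw [h5, ← Real.exp_add, ← Real.exp_add, h2n, ← Real.exp_add] at h4
  have h6 : Real.exp (Real.log 2 * n + -(27 / 20 * (l / 128) * n)) *
      Real.exp (-((7 / 12) * (l / 8) * n + Real.log (96 * (32 / l)) + Real.log 2 * (l / 2 * n))) ≤ S := by
    have := mul_le_mul_of_nonneg_right h4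
      (Real.exp_pos (-((7 / 12) * (l / 8) * n + Real.log (96 * (32 / l)) + Real.log 2 * (l / 2 * n)))).le
    refine this.trans (le_of_eq ?_)
    rw [mul_comm, ← mul_assoc, ← Real.exp_add, neg_add_cancel, Real.exp_zero, one_mul]
  rw [← Real.exp_add] at h6
  refine le_trans ?_ h6
  rw [Real.rpow_def_of_pos (by norm_num)]
  apply Real.exp_le_exp.mpr
  nlinarith

theorem thm_Fin (h1 : St_Sum) (h2 : St_Bal) (h3 : St_Ran) : St_Fin := by
  refine ⟨2400, fun k hk => ?_⟩
  have hk0 : (2 : ℝ) ≤ k := by exact_mod_cast hk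
  have hk0' : (0 : ℝ) < k := by linarith
  have hlog2 : 0.6931471803 < Real.log 2 := Real.log_two_gt_d9
  have hlogk : Real.log 2 ≤ Real.log k := Real.log_le_log (by norm_num) hk0
  have hlk : 0 < Real.log k := by linarith
  set l : ℝ := 2400 * Real.log k ^ 2 / k with hl
  have hl0 : 0 < l := by rw [hl]; positivity
  rcases le_or_gt 1 l with hl1 | hl1
  · refine ⟨1, one_pos, 0, 0, fun n _ => ⟨[], by simp, by simp, ?_⟩⟩
    intro K _ s m P v _
    have hs : 0 < s := lt_of_le_of_lt (Nat.zero_le _) v.isLt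
    have hs1 : (1 : ℝ) ≤ s := by exact_mod_cast hs
    have hs2 : (1 : ℝ) ≤ s * 2 ^ m := by
      have : (1 : ℝ) ≤ 2 ^ m := one_le_pow₀ (by norm_num)
      nlinarith
    refine le_trans ?_ hs2
    apply Real.rpow_le_one_of_one_le_of_nonpos (by norm_num)
    apply mul_nonpos_of_nonpos_of_nonneg (by linarith) (by positivity)
  · obtain ⟨n₁, hn₁⟩ := Fin_ar l hl0 hl1
    set p : ℕ := ⌈1280 / l⌉₊ with hp
    have hp1 : (p : ℝ) ≤ 1281 / l := by
      have h := (Nat.ceil_lt_add_one (show (0 : ℝ) ≤ 1280 / l by positivity)).le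
      have h1 : (1 : ℝ) ≤ 1 / l := by rw [le_div_iff₀ hl0]; linarith
      have h2 : (1281 : ℝ) / l = 1280 / l + 1 / l := by ring
      rw [hp]
      linarith
    have hp2 : 1280 / l ≤ (p : ℝ) := Nat.le_ceil _
    have hτ0 : 0 < l / 8 / (3 * Real.log (4 / (l / 8))) := by
      have h1 : (1 : ℝ) < 4 / (l / 8) := by
        rw [lt_div_iff₀ (by positivity)]; linarith
      have := Real.log_pos h1
      positivity
    obtain ⟨n₂, hn₂⟩ := h3 (l / 128) (l / 8) (l / 8 / (3 * Real.log (4 / (l / 8)))) k p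
      (by positivity) (by linarith) (by linarith) hτ0
      (by
        rw [div_le_iff₀ hl0] at hp2
        linarith) hk (Fin_k k hk l hl hl1 p hp1)
    obtain ⟨n₃, hn₃⟩ := exists_nat_ge (16 / l)
    refine ⟨l / 128 / (10 * Real.log 2), by positivity, 2 ^ k, max (max n₁ n₂) (max n₃ 1), ?_⟩
    intro n hn
    have hnn₁ : n₁ ≤ n := (le_max_left _ _).trans ((le_max_left _ _).trans hn)
    have hnn₂ : n₂ ≤ n := (le_max_right _ _).trans ((le_max_left _ _).trans hn)
    have hnn₃ : n₃ ≤ n := (le_max_left _ _).trans ((le_max_right _ _).trans hn)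
    have hnR : 16 / l ≤ n := hn₃.trans (by exact_mod_cast hnn₃)
    have hln : 16 ≤ l * n := by
      rw [div_le_iff₀ hl0] at hnR
      linarith
    set a : ℕ := ⌈l / 8 * n⌉₊ with ha
    set d : ℕ := ⌈l / 8 / (3 * Real.log (4 / (l / 8))) * n⌉₊ with hd
    obtain ⟨ω, hω1, hω2⟩ := hn₂ n hnn₂ a d ⌊l / 128 * n * 2 ^ k⌋₊ (Nat.le_ceil _) (Nat.le_ceil _) rfl
    refine ⟨Fin_cnf ω, ?_, ?_, ?_⟩
    · unfold Fin_cnf
      rw [List.length_ofFn]
      have h1 : l / 128 * n * 2 ^ k ≤ (2 ^ k * n : ℕ) := by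
        push_cast
        have : (0 : ℝ) ≤ 2 ^ k * n := by positivity
        nlinarith
      calc ⌊l / 128 * n * 2 ^ k⌋₊ ≤ ⌊((2 ^ k * n : ℕ) : ℝ)⌋₊ := Nat.floor_le_floor h1
        _ = 2 ^ k * n := Nat.floor_natCast _
    · intro c hc
      unfold Fin_cnf at hc
      rw [List.mem_ofFn] at hc
      obtain ⟨m, rfl⟩ := hc
      rw [List.length_ofFn]
    · intro K _ s m P v hW
      have hs : 0 < s := lt_of_le_of_lt (Nat.zero_le _) v.isLt
      have hs1 : (1 : ℝ) ≤ s := by exact_mod_cast hs
      have hm1 : (1 : ℝ) ≤ 2 ^ m := one_le_pow₀ (by norm_num)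
      rcases le_or_gt n m with hnm | hnm
      · calc (2 : ℝ) ^ ((1 - l) * n) ≤ (2 : ℝ) ^ ((m : ℝ)) := by
              apply Real.rpow_le_rpow_of_exponent_le (by norm_num)
              have h1 : (n : ℝ) ≤ m := by exact_mod_cast hnm
              have h2' : (0 : ℝ) ≤ l * n := by positivity
              linarith
          _ = 2 ^ m := Real.rpow_natCast _ _
          _ ≤ s * 2 ^ m := le_mul_of_one_le_left (by positivity) hs1
      simp only [Fin_sat] at hW
      -- the parameters of the sum lemma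
      set E : ℕ := ⌊4 * (l / 8) * n⌋₊ with hE
      have haE : 2 * a ≤ E := by
        rw [hE]
        apply Nat.le_floor
        push_cast
        have h := (Nat.ceil_lt_add_one (show (0 : ℝ) ≤ l / 8 * n by positivity)).le
        rw [ha]
        nlinarith
      have hEn : E ≤ n := by
        rw [hE]
        have h1 : 4 * (l / 8) * n ≤ n := by
          have : (0 : ℝ) ≤ n := by positivity
          nlinarith
        calc ⌊4 * (l / 8) * n⌋₊ ≤ ⌊(n : ℝ)⌋₊ := Nat.floor_le_floor h1
          _ = n := Nat.floor_natCast _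
      have hEr : (E : ℝ) ≤ 4 * (l / 8) * n := Nat.floor_le (by positivity)
      set B : ℝ := Real.exp ((7 / 12) * (l / 8) * n) * (32 / l) with hB
      have h32 : (1 : ℝ) ≤ 32 / l := by rw [le_div_iff₀ hl0]; linarith
      have hB1 : 1 ≤ B := by
        rw [hB]
        have h1 : (1 : ℝ) ≤ Real.exp ((7 / 12) * (l / 8) * n) := Real.one_le_exp (by positivity)
        nlinarith
      have h32' : 4 / (l / 8) = 32 / l := by
        field_simp
        norm_num
      have hbal : BallLe n d B := by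
        intro x
        rw [Fin_ball]
        refine (h2 n univ d (l / 32) (by positivity) (by linarith) x).trans ?_
        rw [hB, Finset.card_univ, Fintype.card_fin]
        have e1 : (1 + l / 32) ^ n ≤ Real.exp (l / 32 * n) := by
          have h := Real.add_one_le_exp (l / 32)
          calc (1 + l / 32) ^ n ≤ (Real.exp (l / 32)) ^ n :=
                pow_le_pow_left₀ (by positivity) (by linarith) n
            _ = _ := by
                rw [← Real.exp_nat_mul]
                congr 1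
                ring
        have hlogpos : 0 < Real.log (32 / l) := by
          apply Real.log_pos
          rw [lt_div_iff₀ hl0]; linarith
        have e2 : (1 / (l / 32)) ^ d ≤ Real.exp (l / 24 * n) * (32 / l) := by
          have h1 : 1 / (l / 32) = 32 / l := by
            field_simp
          rw [h1]
          have h2' : (32 / l) ^ d = Real.exp (Real.log (32 / l) * d) := by
            rw [Real.exp_mul, Real.exp_log (by positivity), Real.rpow_natCast]
          rw [h2']
          have hd1 : (d : ℝ) ≤ l / 8 / (3 * Real.log (32 / l)) * n + 1 := by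
            rw [hd, h32']
            exact (Nat.ceil_lt_add_one (by positivity)).le
          calc Real.exp (Real.log (32 / l) * d)
              ≤ Real.exp (Real.log (32 / l) * (l / 8 / (3 * Real.log (32 / l)) * n + 1)) :=
                Real.exp_le_exp.mpr (mul_le_mul_of_nonneg_left hd1 hlogpos.le)
            _ = Real.exp (l / 24 * n + Real.log (32 / l)) := by
                congr 1
                field_simp
                ring
            _ = _ := by rw [Real.exp_add, Real.exp_log (by positivity)]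
        calc (1 + l / 32) ^ n * (1 / (l / 32)) ^ d
            ≤ Real.exp (l / 32 * n) * (Real.exp (l / 24 * n) * (32 / l)) :=
              mul_le_mul e1 e2 (by positivity) (by positivity)
          _ = _ := by
              rw [← mul_assoc, ← Real.exp_add]
              congr 2
              ring
      have hsum := h1 K n s m P v (Mod ω) a d (max E m) (Real.exp (-(3 / 2 * (l / 128) * n))) B
        (Real.exp_pos _).le hB1 (le_max_right _ _) (haE.trans (le_max_left _ _))
        (max_le hEn hnm.le) hω2 hbal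
      have hEm : (2 : ℝ) ^ (max E m) ≤ 2 ^ E * 2 ^ m := by
        rw [← pow_add]
        exact pow_le_pow_right₀ (by norm_num) (max_le (Nat.le_add_right _ _) (Nat.le_add_left _ _))
      have hlast : 8 * B * 2 ^ (max E m) * (2 * (s : ℝ) + 1) ≤ 8 * B * 2 ^ E * (3 * (s * 2 ^ m)) := by
        calc 8 * B * 2 ^ (max E m) * (2 * (s : ℝ) + 1) ≤ 8 * B * (2 ^ E * 2 ^ m) * (3 * s) := by
              apply mul_le_mul _ (by linarith) (by positivity) (by positivity)
              exact mul_le_mul_of_nonneg_left hEm (by positivity)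
          _ = _ := by ring
      have hS1 : (1 : ℝ) ≤ s * 2 ^ m := by nlinarith
      exact hn₁ n hnn₁ _ _ E B _ hS1 hEr hB hω1 hW (by linarith)

end Pool.Agent.STH
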