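import Mathlib

/-!
# Read-once programs with gates over a field, CNF formulas (MP_4ed1f9_lc)
-/

set_option autoImplicit false

namespace Pool.Agent.STH

/-- A program over the field `K` in `n` variables with `s` nodes and leaves of at most `m`
variables. The node `v` has a set `vars v` of variables and a function `val v` on the cube, and is
* a leaf: any function of the variables in `vars v`, of which there are at most `m`, or
* a test: `a` if `t = 0` and `b` if `t = 1`, where the node `t` has the values `0` and `1` only and
  no variable in common with the nodes `a` and `b`, or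
* a gate `α + β a + γ b + δ a b`, applied to two nodes `a`, `b` with no variable in common.
The inputs of a node come earlier in the order of the nodes. -/
structure Program (K : Type) [Field K] (n s m : ℕ) where
  /-- the variables of a node -/
  vars : Fin s → Finset (Fin n)
  /-- the function computed by a node -/
  val : Fin s → (Fin n → Bool) → K
  /-- the rules -/
  ok : ∀ v : Fin s,
    ((vars v).card ≤ m ∧ ∀ x x' : Fin n → Bool, (∀ i ∈ vars v, x i = x' i) → val v x = val v x') ∨
    (∃ t a b : Fin s, t < v ∧ a < v ∧ b < v ∧ Disjoint (vars t) (vars a ∪ vars b) ∧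
      vars v = vars t ∪ (vars a ∪ vars b) ∧
      ∀ x, (val t x = 0 ∧ val v x = val a x) ∨ (val t x = 1 ∧ val v x = val b x)) ∨
    (∃ a b : Fin s, a < v ∧ b < v ∧ Disjoint (vars a) (vars b) ∧ vars v = vars a ∪ vars b ∧
      ∃ α β γ δ : K, ∀ x, val v x = α + β * val a x + γ * val b x + δ * (val a x * val b x))

/-- A CNF formula in `n` variables: a list of clauses, a clause being a list of literals; the
literal `(i, b)` is true at `x` if `x i = b`. -/
abbrev CNF (n : ℕ) := List (List (Fin n × Bool))

/-- The point `x` is a model of `φ`. -/
def Sat {n : ℕ} (φ : CNF n) (x : Fin n → Bool) : Prop := ∀ c ∈ φ, ∃ l ∈ c, x l.1 = l.2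

end Pool.Agent.STH
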