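import Pool.Agent.STH.Defs

/-!
# The main path of a point in a program
-/

set_option autoImplicit false

namespace Pool.Agent.STH

open Finset

/-- a node depends on its variables only -/
theorem Pth_dep {K : Type} [Field K] {n s m : ℕ} (P : Program K n s m) :
    ∀ (v : Fin s) (x x' : Pt n), (∀ i ∈ P.vars v, x i = x' i) → P.val v x = P.val v x' := by
  intro v
  induction v using WellFoundedLT.induction with
  | ind v ih =>
    intro x x' h
    rcases P.ok v with ⟨_, hc⟩ | ⟨t, a, b, ht, ha, hb, _, hv, hx⟩ |
      ⟨a, b, ha, hb, _, hv, α, β, γ, δ, hx⟩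
    · exact hc x x' h
    · have h0 := ih t ht x x' (fun j hj => h j (by rw [hv]; exact mem_union_left _ hj))
      have h1 := ih a ha x x' (fun j hj => h j (by
        rw [hv]; exact mem_union_right _ (mem_union_left _ hj)))
      have h2 := ih b hb x x' (fun j hj => h j (by
        rw [hv]; exact mem_union_right _ (mem_union_right _ hj)))
      rcases hx x with ⟨e1, e2⟩ | ⟨e1, e2⟩ <;> rcases hx x' with ⟨e3, e4⟩ | ⟨e3, e4⟩
      · rw [e2, e4, h1]
      · rw [h0, e3] at e1
        exact absurd e1 one_ne_zero
      · rw [h0, e3] at e1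
        exact absurd e1 zero_ne_one
      · rw [e2, e4, h2]
    · have h1 := ih a ha x x' (fun j hj => h j (by rw [hv]; exact mem_union_left _ hj))
      have h2 := ih b hb x x' (fun j hj => h j (by rw [hv]; exact mem_union_right _ hj))
      rw [hx, hx, h1, h2]

/-- one step of the main path -/
theorem Pth_step {K : Type} [Field K] {n s m : ℕ} (P : Program K n s m) (a E : ℕ) (hmE : m ≤ E)
    (haE : 2 * a ≤ E) (u : Fin s) (hu : E < (P.vars u).card) :
    ∃ (c : Bool → Fin s) (t : Pt n → Bool) (T : Bool → Finset (Fin n)),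
      (∀ b, c b < u ∧ P.vars (c b) ⊆ T b ∧ T b ⊆ P.vars u ∧ a ≤ (T b).card) ∧
      ∀ x, ∃ α β : K, ∀ x', Off (T (t x)) x x' →
        t x' = t x ∧ P.val u x' = α + β * P.val (c (t x)) x' := by
  classical
  rcases P.ok u with ⟨hv, _⟩ | ⟨w, p, q, hw, hp, hq, hd, hv, hx⟩ |
      ⟨p, q, hp, hq, hd, hv, α, β, γ, δ, hx⟩
  · omega
  · have hcard : (P.vars u).card = (P.vars w).card + (P.vars p ∪ P.vars q).card := by
      rw [hv, card_union_of_disjoint hd]
    rcases le_total (P.vars w).card (P.vars p ∪ P.vars q).card with hle | hle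
    · -- go to a child
      refine ⟨fun b => if b = true then q else p, fun x => decide (P.val w x = 1),
        fun _ => P.vars p ∪ P.vars q, ?_, ?_⟩
      · intro b
        have h1 : a ≤ (P.vars p ∪ P.vars q).card := by omega
        have h2 : P.vars p ∪ P.vars q ⊆ P.vars u := by rw [hv]; exact subset_union_right
        cases b
        · exact ⟨by simpa using hp, by simp, h2, h1⟩
        · exact ⟨by simpa using hq, by simp, h2, h1⟩
      · intro x
        refine ⟨0, 1, fun x' h => ?_⟩
        have hwx : P.val w x' = P.val w x := by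
          apply Pth_dep
          intro j hj
          exact h j (fun hj' => (disjoint_left.mp hd) hj hj')
        refine ⟨by simp only [hwx], ?_⟩
        rcases hx x' with ⟨e1, e2⟩ | ⟨e1, e2⟩
        · have : ¬ P.val w x = 1 := by
            rw [← hwx, e1]; exact zero_ne_one
          simp [this, e2]
        · have : P.val w x = 1 := by rw [← hwx, e1]
          simp [this, e2]
    · -- go to the tested node
      refine ⟨fun _ => w, fun _ => false, fun _ => P.vars w, ?_, ?_⟩
      · intro b
        refine ⟨hw, Subset.refl _, by rw [hv]; exact subset_union_left, ?_⟩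
        show a ≤ (P.vars w).card
        omega
      · intro x
        refine ⟨P.val p x, P.val q x - P.val p x, fun x' h => ⟨rfl, ?_⟩⟩
        have hpx : P.val p x' = P.val p x := by
          apply Pth_dep
          intro j hj
          exact h j (fun hj' => (disjoint_left.mp hd) hj' (mem_union_left _ hj))
        have hqx : P.val q x' = P.val q x := by
          apply Pth_dep
          intro j hj
          exact h j (fun hj' => (disjoint_left.mp hd) hj' (mem_union_right _ hj))
        rcases hx x' with ⟨e1, e2⟩ | ⟨e1, e2⟩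
        · rw [e2, hpx, e1]; ring
        · rw [e2, hqx, e1]; ring
  · -- the gate
    have key : ∀ (m o : Fin s), m < u → Disjoint (P.vars m) (P.vars o) →
        P.vars u = P.vars m ∪ P.vars o → (P.vars o).card ≤ (P.vars m).card →
        (∀ x, ∃ A B : K, ∀ x', P.val o x' = P.val o x → P.val u x' = A + B * P.val m x') →
        ∃ (c : Bool → Fin s) (t : Pt n → Bool) (T : Bool → Finset (Fin n)),
          (∀ b, c b < u ∧ P.vars (c b) ⊆ T b ∧ T b ⊆ P.vars u ∧ a ≤ (T b).card) ∧
          ∀ x, ∃ α β : K, ∀ x', Off (T (t x)) x x' →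
            t x' = t x ∧ P.val u x' = α + β * P.val (c (t x)) x' := by
      intro m o hm hdis hun hcard hval
      refine ⟨fun _ => m, fun _ => false, fun _ => P.vars u \ P.vars o, ?_, ?_⟩
      · intro b
        refine ⟨hm, ?_, sdiff_subset, ?_⟩
        · intro j hj
          rw [mem_sdiff, hun]
          exact ⟨mem_union_left _ hj, fun hjo => (disjoint_left.mp hdis) hj hjo⟩
        · have h1 : P.vars o ⊆ P.vars u := by rw [hun]; exact subset_union_right
          have h2 : (P.vars u \ P.vars o).card = (P.vars u).card - (P.vars o).card :=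
            card_sdiff_of_subset h1
          have h3 : (P.vars u).card = (P.vars m).card + (P.vars o).card := by
            rw [hun, card_union_of_disjoint hdis]
          show a ≤ (P.vars u \ P.vars o).card
          omega
      · intro x
        obtain ⟨A, B, hAB⟩ := hval x
        refine ⟨A, B, fun x' h => ⟨rfl, ?_⟩⟩
        apply hAB
        apply Pth_dep
        intro j hj
        exact h j (by simp [hj])
    rcases le_total (P.vars p).card (P.vars q).card with h | h
    · apply key q p hq hd.symm (by rw [hv, union_comm]) h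
      intro x
      refine ⟨α + β * P.val p x, γ + δ * P.val p x, fun x' h' => ?_⟩
      rw [hx, h']; ring
    · apply key p q hp hd hv h
      intro x
      refine ⟨α + γ * P.val q x, β + δ * P.val q x, fun x' h' => ?_⟩
      rw [hx, h']; ring

theorem Pth_super {n : ℕ} (V T : Finset (Fin n)) (a E : ℕ) (hVT : V ⊆ T) (hV : V.card ≤ E)
    (haT : a ≤ T.card) (haE : a ≤ E) :
    ∃ R, V ⊆ R ∧ R ⊆ T ∧ a ≤ R.card ∧ R.card ≤ E := by
  obtain ⟨R, h1, h2, h3⟩ := exists_subsuperset_card_eq hVT (le_max_left V.card a)
    (max_le (card_le_card hVT) haT)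
  exact ⟨R, h1, h2, by rw [h3]; exact le_max_right _ _, by rw [h3]; exact max_le hV haE⟩

theorem thm_Pth : St_Pth := by
  classical
  intro K _ n s m P r a E hmE haE hEn
  have haE' : a ≤ E := by omega
  have hstep : ∀ u : Fin s, ∃ (c : Bool → Fin s) (t : Pt n → Bool) (T : Bool → Finset (Fin n)),
      E < (P.vars u).card → ((∀ b, c b < u ∧ P.vars (c b) ⊆ T b ∧ T b ⊆ P.vars u ∧ a ≤ (T b).card) ∧
      ∀ x, ∃ α β : K, ∀ x', Off (T (t x)) x x' →
        t x' = t x ∧ P.val u x' = α + β * P.val (c (t x)) x') := by
    intro u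
    by_cases hu : E < (P.vars u).card
    · obtain ⟨c, t, T, h⟩ := Pth_step P a E hmE haE u hu
      exact ⟨c, t, T, fun _ => h⟩
    · exact ⟨fun _ => u, fun _ => false, fun _ => ∅, fun h => absurd h hu⟩
  choose c t T hT using hstep
  have hR : ∀ (w : Fin s) (b : Bool), ∃ R : Finset (Fin n), E < (P.vars w).card →
      (P.vars (c w b)).card ≤ E →
      P.vars (c w b) ⊆ R ∧ R ⊆ T w b ∧ a ≤ R.card ∧ R.card ≤ E := by
    intro w b
    by_cases hw : E < (P.vars w).card
    · by_cases hc : (P.vars (c w b)).card ≤ E
      · obtain ⟨_, h2, _, h4⟩ := (hT w hw).1 b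
        obtain ⟨R, hR⟩ := Pth_super (P.vars (c w b)) (T w b) a E h2 hc h4 haE'
        exact ⟨R, fun _ _ => hR⟩
      · exact ⟨∅, fun _ h => absurd h hc⟩
    · exact ⟨∅, fun h => absurd h hw⟩
  choose R hR using hR
  have main : ∀ u : Fin s, E < (P.vars u).card → ∃ lab : Pt n → Fin s × Bool, ∀ x,
      E < (P.vars (lab x).1).card ∧ P.vars (lab x).1 ⊆ P.vars u ∧
      (P.vars (c (lab x).1 (lab x).2)).card ≤ E ∧
      ∃ α β : K, ∀ x', Off (R (lab x).1 (lab x).2) x x' →
        lab x' = lab x ∧ P.val u x' = α + β * P.val (c (lab x).1 (lab x).2) x' := by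
    intro u
    induction u using WellFoundedLT.induction with
    | ind u ih =>
      intro hu
      obtain ⟨hT1, hT2⟩ := hT u hu
      have hlab : ∀ b : Bool, ∃ lab : Pt n → Fin s × Bool, E < (P.vars (c u b)).card → ∀ x,
          E < (P.vars (lab x).1).card ∧ P.vars (lab x).1 ⊆ P.vars (c u b) ∧
          (P.vars (c (lab x).1 (lab x).2)).card ≤ E ∧
          ∃ α β : K, ∀ x', Off (R (lab x).1 (lab x).2) x x' →
            lab x' = lab x ∧ P.val (c u b) x' = α + β * P.val (c (lab x).1 (lab x).2) x' := by
        intro b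
        by_cases h : E < (P.vars (c u b)).card
        · obtain ⟨lab, hl⟩ := ih (c u b) (hT1 b).1 h
          exact ⟨lab, fun _ => hl⟩
        · exact ⟨fun _ => (u, b), fun h' => absurd h' h⟩
      choose L hL using hlab
      refine ⟨fun x => if (P.vars (c u (t u x))).card ≤ E then (u, t u x) else L (t u x) x, ?_⟩
      intro x
      by_cases hc : (P.vars (c u (t u x))).card ≤ E
      · simp only [hc, if_true]
        obtain ⟨α, β, hαβ⟩ := hT2 x
        refine ⟨hu, Subset.refl _, trivial, α, β, ?_⟩
        intro x' hx'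
        have hoff : Off (T u (t u x)) x x' := by
          intro i hi
          exact hx' i (fun hiR => hi ((hR u (t u x) hu hc).2.1 hiR))
        obtain ⟨h1, h2⟩ := hαβ x' hoff
        refine ⟨?_, h2⟩
        simp only [h1, hc, if_true]
      · simp only [hc, if_false]
        have hc' : E < (P.vars (c u (t u x))).card := not_le.mp hc
        obtain ⟨l1, l2, l3, α', β', hl⟩ := hL (t u x) hc' x
        obtain ⟨α, β, hαβ⟩ := hT2 x
        refine ⟨l1, l2.trans ((hT1 (t u x)).2.1.trans (hT1 (t u x)).2.2.1), l3,
          α + β * α', β * β', ?_⟩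
        intro x' hx'
        have hoff : Off (T u (t u x)) x x' := by
          intro i hi
          refine hx' i (fun hiR => hi ?_)
          have h1 := (hR _ _ l1 l3).2.1 hiR
          have h2 := ((hT _ l1).1 (L (t u x) x).2).2.2.1 h1
          exact (hT1 (t u x)).2.1 (l2 h2)
        obtain ⟨h1, h2⟩ := hαβ x' hoff
        obtain ⟨h3, h4⟩ := hl x' hx'
        refine ⟨?_, ?_⟩
        · simp only [h1, hc, if_false]
          exact h3
        · rw [h2, h4]; ring
  by_cases hr : E < (P.vars r).card
  · obtain ⟨lab, hlab⟩ := main r hr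
    refine ⟨fun x => some (lab x), fun l => l.elim ∅ (fun e => R e.1 e.2),
      fun l => l.elim (fun _ => 0) (fun e => if E < (P.vars e.1).card ∧ (P.vars (c e.1 e.2)).card ≤ E
        then P.val (c e.1 e.2) else fun _ => 0), ?_, ?_⟩
    · rintro (_ | ⟨w, b⟩) x x' h
      · rfl
      · simp only [Option.elim_some] at h ⊢
        by_cases hh : E < (P.vars w).card ∧ (P.vars (c w b)).card ≤ E
        · simp only [hh, and_self, if_true]
          exact Pth_dep P _ x x' (fun i hi => h i ((hR w b hh.1 hh.2).1 hi))
        · simp only [hh, if_false]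
    · intro x
      obtain ⟨l1, _, l3, α, β, hl⟩ := hlab x
      have h := hR _ _ l1 l3
      refine ⟨h.2.2.1, h.2.2.2, α, β, ?_⟩
      intro x' hx'
      obtain ⟨h1, h2⟩ := hl x' hx'
      refine ⟨by simp only [h1], ?_⟩
      rw [h2]
      simp only [Option.elim_some, l1, l3, and_self, if_true]
  · obtain ⟨R0, h1, _, h3, h4⟩ := Pth_super (P.vars r) univ a E (subset_univ _) (not_lt.mp hr)
      (by rw [card_univ, Fintype.card_fin]; omega) haE'
    refine ⟨fun _ => none, fun _ => R0, fun l => l.elim (P.val r) (fun _ _ => 0), ?_, ?_⟩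
    · rintro (_ | e) x x' h
      · exact Pth_dep P _ x x' (fun i hi => h i (h1 hi))
      · rfl
    · intro x
      refine ⟨h3, h4, 0, 1, fun x' _ => ⟨rfl, ?_⟩⟩
      simp

end Pool.Agent.STH
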