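import Pool.Agent.STH.Defs

/-!
# STH, module Sum: the lower bound from (Q), by summation over the labels (helper31)
-/

set_option autoImplicit false

namespace Pool.Agent.STH

open Finset

private theorem Sum_fib {α β : Type} [Fintype α] [Fintype β] [DecidableEq β] (lab : α → β)
    (p : α → Prop) :
    ((Nat.card {x : α // p x} : ℕ) : ℝ) = ∑ l, ((Nat.card {x : α // lab x = l ∧ p x} : ℕ) : ℝ) := by
  classical
  rw [← Nat.cast_sum]
  congr 1
  rw [Nat.card_eq_fintype_card, Fintype.card_subtype,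
    Finset.card_eq_sum_card_fiberwise (f := lab) (t := Finset.univ) (fun x _ => Finset.mem_univ _)]
  refine Finset.sum_congr rfl fun l _ => ?_
  rw [Nat.card_eq_fintype_card, Fintype.card_subtype, Finset.filter_filter]
  congr 1
  ext x
  simp only [Finset.mem_filter, Finset.mem_univ, true_and]
  exact and_comm

/-- **[Sum]** (helper31) -/
theorem thm_Sum (h1 : St_Cyl) (h2 : St_Pth) : St_Sum := by
  intro K _ n s m P r F a d E Y B hY hB hmE haE hEn hQ hBl
  classical
  obtain ⟨lab, R, g, hg, hx⟩ := h2 K n s m P r a E hmE haE hEn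
  have key : ∀ l : Option (Fin s × Bool),
      ((Nat.card {x : Pt n // lab x = l ∧ F x} : ℕ) : ℝ) ≤
        ((Nat.card {x : Pt n // lab x = l ∧
          (F x ∧ P.val r x ≠ 1 ∨ ¬ F x ∧ P.val r x ≠ 0)} : ℕ) : ℝ)
          + 2 * ((Nat.card {x : Pt n // lab x = l ∧ True} : ℕ) : ℝ) * Y + 8 * B * 2 ^ E := by
    intro l
    have hB0 : (0 : ℝ) ≤ B := zero_le_one.trans hB
    by_cases hl : ∃ x0, lab x0 = l
    · obtain ⟨x0, hx0⟩ := hl
      have h3 := hx x0
      rw [hx0] at h3
      have h4 := h1 K n F a d Y B hY hB hQ hBl (R l) (fun x => lab x = l) (P.val r) (g l) h3.1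
        (fun x x' hD hO => by
          have h5 := hx x
          rw [hD] at h5
          obtain ⟨-, -, α, β, h6⟩ := h5
          exact (h6 x' hO).1)
        (fun x x' h => hg l x x' h)
        (fun x hD => by
          have h5 := hx x
          rw [hD] at h5
          obtain ⟨-, -, α, β, h6⟩ := h5
          exact ⟨α, β, fun x' hO => (h6 x' hO).2⟩)
      have h5 : (2 : ℝ) ^ (R l).card ≤ 2 ^ E := pow_le_pow_right₀ one_le_two h3.2.1
      have h6 : 8 * B * 2 ^ (R l).card ≤ 8 * B * 2 ^ E :=
        mul_le_mul_of_nonneg_left h5 (by positivity)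
      simp only [and_true]
      linarith
    · have h3 : Nat.card {x : Pt n // lab x = l ∧ F x} = 0 := by
        rw [Nat.card_eq_zero]
        exact Or.inl ⟨fun x => hl ⟨x.1, x.2.1⟩⟩
      rw [h3, Nat.cast_zero]
      positivity
  have h3 := Finset.sum_le_sum fun l (_ : l ∈ (Finset.univ : Finset (Option (Fin s × Bool)))) =>
    key l
  rw [Finset.sum_add_distrib, Finset.sum_add_distrib, ← Sum_fib lab F,
    ← Sum_fib lab fun x => F x ∧ P.val r x ≠ 1 ∨ ¬ F x ∧ P.val r x ≠ 0] at h3
  have h4 : ∑ l, 2 * ((Nat.card {x : Pt n // lab x = l ∧ True} : ℕ) : ℝ) * Y =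
      2 * 2 ^ n * Y := by
    rw [← Finset.sum_mul, ← Finset.mul_sum, ← Sum_fib lab fun _ => True]
    congr 2
    rw [Nat.card_eq_fintype_card, Fintype.card_subtype, Finset.filter_true, Finset.card_univ]
    simp
  have h5 : ∑ _l : Option (Fin s × Bool), 8 * B * (2 : ℝ) ^ E = 8 * B * 2 ^ E * (2 * s + 1) := by
    rw [Finset.sum_const, Finset.card_univ, nsmul_eq_mul]
    simp only [Fintype.card_option, Fintype.card_prod, Fintype.card_fin, Fintype.card_bool]
    push_cast
    ring
  rw [h4, h5] at h3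
  exact h3

end Pool.Agent.STH
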